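import Mathlib

set_option autoImplicit false

namespace Pool.Agent.Helper206.Bottom

open Set MeasureTheory Filter
open scoped Topology ContDiff ComplexConjugate ENNReal

/-- Complex n-space. -/
abbrev Cn (n : ℕ) : Type := Fin n → ℂ

variable {n : ℕ}

/-- Derivative at `z`, in the direction `x`, of the function `y ↦ g_y(v,w)`. -/
noncomputable def dmetric (g : Cn n → Cn n → Cn n → ℝ) (z x v w : Cn n) : ℝ :=
  fderiv ℝ (fun y => g y v w) z x

/-- `g` is a Kähler metric on the open set `X` of complex n-space: a smooth Riemannian metric,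
invariant under multiplication by `i`, whose fundamental form `g(i·,·)` is closed. -/
structure IsKahlerMetric (X : Set (Cn n)) (g : Cn n → Cn n → Cn n → ℝ) : Prop where
  add_left : ∀ z ∈ X, ∀ v v' w, g z (v + v') w = g z v w + g z v' w
  smul_left : ∀ z ∈ X, ∀ (c : ℝ) (v w : Cn n), g z (c • v) w = c * g z v w
  symm : ∀ z ∈ X, ∀ v w, g z v w = g z w v
  pos : ∀ z ∈ X, ∀ v, v ≠ 0 → 0 < g z v v
  hermitian : ∀ z ∈ X, ∀ v w, g z (Complex.I • v) (Complex.I • w) = g z v w
  smooth : ∀ v w, ContDiffOn ℝ ∞ (fun z => g z v w) X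
  closed : ∀ z ∈ X, ∀ x v w, dmetric g z x (Complex.I • v) w + dmetric g z v (Complex.I • w) x
    + dmetric g z w (Complex.I • x) v = 0

/-- Length of a curve parametrised by the unit interval. -/
noncomputable def curveLength (g : Cn n → Cn n → Cn n → ℝ) (γ : ℝ → Cn n) : ℝ :=
  ∫ t in (0 : ℝ)..1, Real.sqrt (g (γ t) (deriv γ t) (deriv γ t))

/-- Riemannian distance in `X`: infimum of the lengths of continuously differentiable curves
in `X` from `p` to `q`. -/
noncomputable def rdist (X : Set (Cn n)) (g : Cn n → Cn n → Cn n → ℝ) (p q : Cn n) : ℝ≥0∞ :=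
  ⨅ (γ : ℝ → Cn n) (_ : ContDiff ℝ 1 γ ∧ (∀ t ∈ Icc (0 : ℝ) 1, γ t ∈ X) ∧ γ 0 = p ∧ γ 1 = q),
    ENNReal.ofReal (curveLength g γ)

/-- Every Cauchy sequence for the Riemannian distance converges. -/
def IsCompleteMetric (X : Set (Cn n)) (g : Cn n → Cn n → Cn n → ℝ) : Prop :=
  ∀ x : ℕ → Cn n, (∀ k, x k ∈ X) →
    (∀ ε : ℝ≥0∞, 0 < ε → ∃ N, ∀ j ≥ N, ∀ k ≥ N, rdist X g (x j) (x k) < ε) →
    ∃ y ∈ X, Tendsto (fun k => rdist X g (x k) y) atTop (𝓝 0)

/-- The set `A` is unbounded for the Riemannian distance. -/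
def IsUnbounded (X : Set (Cn n)) (g : Cn n → Cn n → Cn n → ℝ) (A : Set (Cn n)) : Prop :=
  ∀ R : ℝ, ∃ x ∈ A, ∃ y ∈ A, ENNReal.ofReal R < rdist X g x y

/-- Some compact `K` in `X` has a complement with at least two unbounded components. -/
def HasMoreThanOneEnd (X : Set (Cn n)) (g : Cn n → Cn n → Cn n → ℝ) : Prop :=
  ∃ K ⊆ X, IsCompact K ∧ ∃ p ∈ X \ K, ∃ q ∈ X \ K,
    connectedComponentIn (X \ K) p ≠ connectedComponentIn (X \ K) q ∧
    IsUnbounded X g (connectedComponentIn (X \ K) p) ∧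
    IsUnbounded X g (connectedComponentIn (X \ K) q)

/-- `Γ` gives the Christoffel symbols of `g` on `X` (Koszul formula for constant fields):
`Γ z x v` is the covariant derivative at `z` of the constant vector field `v` in direction `x`. -/
def IsLeviCivita (X : Set (Cn n)) (g : Cn n → Cn n → Cn n → ℝ)
    (Γ : Cn n → Cn n → Cn n → Cn n) : Prop :=
  ∀ z ∈ X, ∀ x v w, 2 * g z (Γ z x v) w = dmetric g z x v w + dmetric g z v x w - dmetric g z w x v

/-- Curvature tensor `R(u,v)w` of the connection with Christoffel symbols `Γ`. -/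
noncomputable def curv (Γ : Cn n → Cn n → Cn n → Cn n) (z u v w : Cn n) : Cn n :=
  fderiv ℝ (fun y => Γ y v w) z u - fderiv ℝ (fun y => Γ y u w) z v
    + Γ z u (Γ z v w) - Γ z v (Γ z u w)

/-- Ricci tensor: `Ric(v,w)` is the real trace of `u ↦ R(u,v)w`, computed in the real basis
of complex n-space formed by the unit vectors and `i` times the unit vectors. -/
noncomputable def ricci (Γ : Cn n → Cn n → Cn n → Cn n) (z v w : Cn n) : ℝ :=
  ∑ a, ((curv Γ z (Pi.single a 1) v w a).re + (curv Γ z (Pi.single a Complex.I) v w a).im)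

/-- The Ricci curvature of `g` on `X` is at least `c`. -/
def RicciBoundedBelow (X : Set (Cn n)) (g : Cn n → Cn n → Cn n → ℝ) (c : ℝ) : Prop :=
  ∃ Γ, IsLeviCivita X g Γ ∧ ∀ z ∈ X, ∀ v, c * g z v v ≤ ricci Γ z v v

/-- The real basis of complex n-space: unit vectors, and `i` times unit vectors. -/
noncomputable def realBasis : Fin n ⊕ Fin n → Cn n :=
  Sum.elim (fun a => Pi.single a 1) (fun a => Pi.single a Complex.I)

/-- Density of the Riemannian volume with respect to Lebesgue measure. -/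
noncomputable def volDensity (g : Cn n → Cn n → Cn n → ℝ) (z : Cn n) : ℝ :=
  Real.sqrt (Matrix.det (Matrix.of fun i j : Fin n ⊕ Fin n => g z (realBasis i) (realBasis j)))

/-- Squared norm of the gradient: the supremum of `dφ(v)^2 / g(v,v)` over tangent vectors. -/
noncomputable def gradSq (g : Cn n → Cn n → Cn n → ℝ) (φ : Cn n → ℝ) (z : Cn n) : ℝ :=
  ⨆ v : Cn n, (fderiv ℝ φ z v) ^ 2 / g z v v

/-- Bottom of the spectrum of the Laplacian: infimum of the Rayleigh quotients. -/
noncomputable def bottomSpectrum (X : Set (Cn n)) (g : Cn n → Cn n → Cn n → ℝ) : ℝ :=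
  sInf {q | ∃ φ : Cn n → ℝ, ContDiff ℝ ∞ φ ∧ HasCompactSupport φ ∧ tsupport φ ⊆ X ∧ φ ≠ 0 ∧
    q = (∫ z in X, gradSq g φ z * volDensity g z) / (∫ z in X, φ z ^ 2 * volDensity g z)}

/-- Hermitian pairing of complex n-space. -/
noncomputable def ip (v w : Cn n) : ℂ := ∑ a, v a * conj (w a)

/-- Squared Euclidean norm. -/
noncomputable def esq (z : Cn n) : ℝ := ∑ a, Complex.normSq (z a)

/-- The unit ball. -/
def unitBall (n : ℕ) : Set (Cn n) := {z | esq z < 1}

/-- Squared length of `v` at `z` in the complex hyperbolic metric of the unit ball, of constant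
holomorphic sectional curvature `-4`. -/
noncomputable def hypSq (z v : Cn n) : ℝ :=
  esq v / (1 - esq z) + Complex.normSq (ip v z) / (1 - esq z) ^ 2

/-- `F` restricts to a holomorphic isometry of complex hyperbolic space. -/
def IsHypIsometry (F : Cn n → Cn n) : Prop :=
  BijOn F (unitBall n) (unitBall n) ∧ DifferentiableOn ℂ F (unitBall n) ∧
    ∀ z ∈ unitBall n, ∀ v, hypSq (F z) (fderiv ℂ F z v) = hypSq z v

/-- `(X,g)` is isometric to the quotient of complex hyperbolic space by a discrete (that is,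
properly discontinuous) group `Γ` of holomorphic isometries acting freely: there is a smooth
map `π` from the ball onto `X`, whose fibres are the orbits of `Γ`, pulling back the metric of
`X` to the complex hyperbolic metric. -/
def IsHypQuotient (X : Set (Cn n)) (g : Cn n → Cn n → Cn n → ℝ) : Prop :=
  ∃ Γ : Subgroup (Equiv.Perm (unitBall n)),
    (∀ γ ∈ Γ, ∃ F, IsHypIsometry F ∧ ∀ z : unitBall n, (γ z : Cn n) = F z) ∧
    (∀ γ ∈ Γ, (∃ z, γ z = z) → γ = 1) ∧
    (∀ K : Set (unitBall n), IsCompact K → {γ | γ ∈ Γ ∧ (γ '' K ∩ K).Nonempty}.Finite) ∧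
    ∃ π : Cn n → Cn n, ContDiffOn ℝ ∞ π (unitBall n) ∧ π '' unitBall n = X ∧
      (∀ z w : unitBall n, π z = π w ↔ ∃ γ ∈ Γ, γ z = w) ∧
      ∀ z ∈ unitBall n, ∀ v, g (π z) (fderiv ℝ π z v) (fderiv ℝ π z v) = hypSq z v

end Pool.Agent.Helper206.Bottom
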