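import Mathlib
import Pool.Agent.Helper206.Bottom.Defs

set_option autoImplicit false

namespace Pool.Agent.Helper206.Bottom

open Set MeasureTheory Filter
open scoped Topology ContDiff ComplexConjugate ENNReal

variable {n : ℕ}

/-! ### the pairing -/

lemma ip_add_left (v v' w : Cn n) : ip (v + v') w = ip v w + ip v' w := by
  simp [ip, add_mul, Finset.sum_add_distrib]

lemma ip_add_right (v w w' : Cn n) : ip v (w + w') = ip v w + ip v w' := by
  simp [ip, mul_add, Finset.sum_add_distrib]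

lemma ip_smul_left (c : ℂ) (v w : Cn n) : ip (c • v) w = c * ip v w := by
  simp [ip, Finset.mul_sum, mul_assoc]

lemma ip_smul_right (c : ℂ) (v w : Cn n) : ip v (c • w) = conj c * ip v w := by
  simp only [ip, Finset.mul_sum, Pi.smul_apply, smul_eq_mul, map_mul]
  exact Finset.sum_congr rfl fun _ _ => by ring

lemma ip_rsmul_left (c : ℝ) (v w : Cn n) : ip (c • v) w = (c : ℂ) * ip v w := by
  simp [ip, Finset.mul_sum, mul_assoc]

lemma ip_rsmul_right (c : ℝ) (v w : Cn n) : ip v (c • w) = (c : ℂ) * ip v w := by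
  simp only [ip, Finset.mul_sum, Pi.smul_apply, Complex.real_smul, map_mul, Complex.conj_ofReal]
  exact Finset.sum_congr rfl fun _ _ => by ring

lemma ip_sub_left (v v' w : Cn n) : ip (v - v') w = ip v w - ip v' w := by
  simp [ip, sub_mul, Finset.sum_sub_distrib]

@[simp] lemma ip_zero_left (w : Cn n) : ip 0 w = 0 := by simp [ip]
@[simp] lemma ip_zero_right (w : Cn n) : ip w 0 = 0 := by simp [ip]

lemma ip_conj (v w : Cn n) : conj (ip v w) = ip w v := by
  simp only [ip, map_sum, map_mul, Complex.conj_conj]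
  exact Finset.sum_congr rfl fun _ _ => by ring

lemma ip_symm_re (v w : Cn n) : (ip w v).re = (ip v w).re := by
  rw [← ip_conj v w]; simp

lemma ip_symm_im (v w : Cn n) : (ip w v).im = -(ip v w).im := by
  rw [← ip_conj v w]; simp

lemma ip_self (v : Cn n) : ip v v = (esq v : ℂ) := by
  simp [ip, esq, Complex.mul_conj]

lemma sq_nonneg' (v : Cn n) : 0 ≤ esq v := Finset.sum_nonneg fun _ _ => Complex.normSq_nonneg _

lemma sq_eq_zero {v : Cn n} : esq v = 0 ↔ v = 0 := by
  rw [esq, Finset.sum_eq_zero_iff_of_nonneg fun _ _ => Complex.normSq_nonneg _]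
  constructor
  · intro h; funext a; simpa using h a (Finset.mem_univ a)
  · rintro rfl; simp

lemma sq_pos {v : Cn n} : 0 < esq v ↔ v ≠ 0 := by
  rw [(sq_nonneg' v).lt_iff_ne, ne_comm, Ne, sq_eq_zero]

@[simp] lemma sq_zero' : esq (0 : Cn n) = 0 := by simp [esq]

lemma sq_smul (c : ℂ) (v : Cn n) : esq (c • v) = Complex.normSq c * esq v := by
  simp [esq, Finset.mul_sum]

lemma sq_rsmul (c : ℝ) (v : Cn n) : esq (c • v) = c ^ 2 * esq v := by
  simp only [esq, Finset.mul_sum, Pi.smul_apply, Complex.real_smul, Complex.normSq_mul,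
    Complex.normSq_ofReal]
  exact Finset.sum_congr rfl fun _ _ => by ring

/-- Cauchy-Schwarz. -/
lemma normSq_ip_le (v w : Cn n) : Complex.normSq (ip v w) ≤ esq v * esq w := by
  by_cases hw : w = 0
  · subst hw; simp
  have hs : 0 < esq w := sq_pos.2 hw
  have h := sq_nonneg' ((esq w : ℂ) • v - ip v w • w)
  have e : ((esq ((esq w : ℂ) • v - ip v w • w) : ℝ) : ℂ)
      = ((esq w * (esq w * esq v - Complex.normSq (ip v w)) : ℝ) : ℂ) := by
    rw [← ip_self, ip_sub_left, ip_smul_left, ip_smul_left]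
    have h1 : ∀ x : Cn n, ip x ((esq w : ℂ) • v - ip v w • w)
        = (esq w : ℂ) * ip x v - conj (ip v w) * ip x w := by
      intro x
      rw [← ip_conj, ip_sub_left, ip_smul_left, ip_smul_left, map_sub, map_mul, map_mul,
        ip_conj, ip_conj w x, Complex.conj_ofReal]
    rw [h1, h1, ip_self, ip_self, ip_conj]
    push_cast
    rw [Complex.normSq_eq_conj_mul_self, ip_conj]
    ring
  have e' := Complex.ofReal_injective e
  rw [e'] at h
  nlinarith [(mul_nonneg_iff_of_pos_left hs).1 h]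

/-! ### differentiation bookkeeping -/

/-- `f` has a real differential at `z`, given by `D`. -/
def HD {F : Type*} [NormedAddCommGroup F] [NormedSpace ℝ F] (f : Cn n → F) (D : Cn n → F)
    (z : Cn n) : Prop :=
  ∃ L : Cn n →L[ℝ] F, HasFDerivAt f L z ∧ ∀ x, L x = D x

namespace HD

variable {F : Type*} [NormedAddCommGroup F] [NormedSpace ℝ F]
variable {f g : Cn n → F} {D D' : Cn n → F} {z : Cn n}

lemma fderiv (h : HD f D z) (x : Cn n) : fderiv ℝ f z x = D x := by
  obtain ⟨L, h1, h2⟩ := h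
  rw [h1.fderiv, h2]

lemma differentiableAt (h : HD f D z) : DifferentiableAt ℝ f z := by
  obtain ⟨L, h1, _⟩ := h
  exact h1.differentiableAt

lemma of_differentiableAt (h : DifferentiableAt ℝ f z) : HD f (fun x => _root_.fderiv ℝ f z x) z :=
  ⟨_, h.hasFDerivAt, fun _ => rfl⟩

lemma congr (h : HD f D z) (e : ∀ x, D x = D' x) : HD f D' z := by
  obtain ⟨L, h1, h2⟩ := h
  exact ⟨L, h1, fun x => by rw [h2, e]⟩

lemma congr_fun (h : HD f D z) (e : g =ᶠ[𝓝 z] f) : HD g D z := by
  obtain ⟨L, h1, h2⟩ := h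
  exact ⟨L, h1.congr_of_eventuallyEq e, h2⟩

lemma const (c : F) : HD (fun _ : Cn n => c) (fun _ => 0) z :=
  ⟨0, hasFDerivAt_const c z, fun _ => rfl⟩

lemma id : HD (fun y : Cn n => y) (fun x => x) z :=
  ⟨ContinuousLinearMap.id ℝ _, hasFDerivAt_id z, fun _ => rfl⟩

lemma add (h : HD f D z) (h' : HD g D' z) : HD (fun y => f y + g y) (fun x => D x + D' x) z := by
  obtain ⟨L, h1, h2⟩ := h
  obtain ⟨L', h1', h2'⟩ := h'
  exact ⟨L + L', h1.add h1', fun x => by simp [h2, h2']⟩

lemma sub (h : HD f D z) (h' : HD g D' z) : HD (fun y => f y - g y) (fun x => D x - D' x) z := by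
  obtain ⟨L, h1, h2⟩ := h
  obtain ⟨L', h1', h2'⟩ := h'
  exact ⟨L - L', h1.sub h1', fun x => by simp [h2, h2']⟩

lemma mul {f g : Cn n → ℂ} {D D' : Cn n → ℂ} (h : HD f D z) (h' : HD g D' z) :
    HD (fun y => f y * g y) (fun x => D x * g z + f z * D' x) z := by
  obtain ⟨L, h1, h2⟩ := h
  obtain ⟨L', h1', h2'⟩ := h'
  refine ⟨_, h1.mul h1', fun x => ?_⟩
  simp [h2, h2']; ring

lemma mulR {f g : Cn n → ℝ} {D D' : Cn n → ℝ} (h : HD f D z) (h' : HD g D' z) :
    HD (fun y => f y * g y) (fun x => D x * g z + f z * D' x) z := by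
  obtain ⟨L, h1, h2⟩ := h
  obtain ⟨L', h1', h2'⟩ := h'
  refine ⟨_, h1.mul h1', fun x => ?_⟩
  simp [h2, h2']; ring

lemma smul {c : Cn n → ℂ} {f : Cn n → Cn n} {D : Cn n → ℂ} {D' : Cn n → Cn n} (h : HD c D z)
    (h' : HD f D' z) : HD (fun y => c y • f y) (fun x => D x • f z + c z • D' x) z := by
  obtain ⟨L, h1, h2⟩ := h
  obtain ⟨L', h1', h2'⟩ := h'
  refine ⟨_, h1.smul h1', fun x => ?_⟩
  simp [h2, h2', add_comm]

lemma comp {f : Cn n → ℝ} {D : Cn n → ℝ} {P : ℝ → ℝ} {P' : ℝ} (h : HD f D z)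
    (hP : HasDerivAt P P' (f z)) : HD (fun y => P (f y)) (fun x => P' * D x) z := by
  obtain ⟨L, h1, h2⟩ := h
  refine ⟨_, hP.comp_hasFDerivAt z h1, fun x => ?_⟩
  simp [h2]

lemma ofReal {f : Cn n → ℝ} {D : Cn n → ℝ} (h : HD f D z) :
    HD (fun y => (f y : ℂ)) (fun x => (D x : ℂ)) z := by
  obtain ⟨L, h1, h2⟩ := h
  exact ⟨_, Complex.ofRealCLM.hasFDerivAt.comp z h1, fun x => by simp [h2]⟩

lemma re {f : Cn n → ℂ} {D : Cn n → ℂ} (h : HD f D z) :
    HD (fun y => (f y).re) (fun x => (D x).re) z := by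
  obtain ⟨L, h1, h2⟩ := h
  exact ⟨_, Complex.reCLM.hasFDerivAt.comp z h1, fun x => by simp [h2]⟩

lemma of_linear (L : Cn n →ₗ[ℝ] F) : HD (fun y => L y) (fun x => L x) z :=
  ⟨LinearMap.toContinuousLinearMap L, (LinearMap.toContinuousLinearMap L).hasFDerivAt,
    fun _ => rfl⟩

lemma ip_left (w : Cn n) : HD (fun y => ip y w) (fun x => ip x w) z := by
  have := of_linear (F := ℂ) (z := z)
    ({ toFun := fun u : Cn n => ip u w
       map_add' := fun u v => ip_add_left u v w
       map_smul' := fun c v => by simp [ip_rsmul_left] } : Cn n →ₗ[ℝ] ℂ)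
  exact this

lemma ip_right (v : Cn n) : HD (fun y => ip v y) (fun x => ip v x) z := by
  have := of_linear (F := ℂ) (z := z)
    ({ toFun := fun u : Cn n => ip v u
       map_add' := fun u w => ip_add_right v u w
       map_smul' := fun c w => by simp [ip_rsmul_right] } : Cn n →ₗ[ℝ] ℂ)
  exact this

lemma sum {ι : Type*} (s : Finset ι) {f : ι → Cn n → F} {D : ι → Cn n → F}
    (h : ∀ i ∈ s, HD (f i) (D i) z) : HD (fun y => ∑ i ∈ s, f i y) (fun x => ∑ i ∈ s, D i x) z := by
  classical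
  induction s using Finset.induction_on with
  | empty => simpa using const (0 : F)
  | insert i s hi ih =>
    have h1 := (h i (Finset.mem_insert_self _ _)).add
      (ih fun j hj => h j (Finset.mem_insert_of_mem hj))
    simpa [Finset.sum_insert hi] using h1

end HD

lemma HD_sq (z : Cn n) : HD esq (fun x => 2 * (ip x z).re) z := by
  have h : HD (fun y : Cn n => (∑ a, y a * conj (y a)).re)
      (fun x => (∑ a, (x a * conj (z a) + z a * conj (x a))).re) z := by
    apply HD.re
    apply HD.sum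
    intro a _
    have h1 : HD (fun y : Cn n => y a) (fun x => x a) z :=
      HD.of_linear (LinearMap.proj a : Cn n →ₗ[ℝ] ℂ)
    have h2 : HD (fun y : Cn n => conj (y a)) (fun x => conj (x a)) z :=
      HD.of_linear ((Complex.conjAe.toLinearMap).comp (LinearMap.proj a : Cn n →ₗ[ℝ] ℂ))
    exact h1.mul h2
  have e : (fun y : Cn n => (∑ a, y a * conj (y a)).re) = esq := by
    funext y
    simp [esq, Complex.mul_conj]
  rw [e] at h
  refine h.congr fun x => ?_
  have : (∑ a, (x a * conj (z a) + z a * conj (x a))) = ip x z + ip z x := by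
    rw [Finset.sum_add_distrib]; rfl
  rw [this, Complex.add_re, ip_symm_re x z]; ring

lemma continuous_sq : Continuous (esq : Cn n → ℝ) := by
  unfold esq
  exact continuous_finsetSum _ fun a _ => Complex.continuous_normSq.comp (continuous_apply a)

lemma contDiff_sq : ContDiff ℝ ∞ (esq : Cn n → ℝ) := by
  have e : (esq : Cn n → ℝ) = fun y => ∑ a, ((y a).re ^ 2 + (y a).im ^ 2) := by
    funext y; simp [esq, Complex.normSq_apply]; exact Finset.sum_congr rfl fun _ _ => by ring
  rw [e]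
  apply ContDiff.sum
  intro a _
  have h1 : ContDiff ℝ ∞ fun y : Cn n => y a := contDiff_apply _ _ a
  exact ((Complex.reCLM.contDiff.comp h1).pow 2).add ((Complex.imCLM.contDiff.comp h1).pow 2)

end Pool.Agent.Helper206.Bottom
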