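import Mathlib
import Pool.Agent.Helper206.Bottom.Calc

set_option autoImplicit false

namespace Pool.Agent.Helper206.Bottom

open Set MeasureTheory Filter
open scoped Topology ContDiff ComplexConjugate ENNReal

variable {n : ℕ}

/-- Rotation invariant Kähler metric with radial coefficients `P`, `Q`. -/
noncomputable def gmet (P Q : ℝ → ℝ) (z v w : Cn n) : ℝ :=
  ((P (esq z) : ℂ) * ip v w + (Q (esq z) : ℂ) * (ip v z * ip z w)).re

variable {P Q : ℝ → ℝ}

lemma gmet_self (z v : Cn n) :
    gmet P Q z v v = P (esq z) * esq v + Q (esq z) * Complex.normSq (ip v z) := by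
  simp only [gmet, ip_self, Complex.add_re, Complex.re_ofReal_mul]
  rw [← ip_conj v z, Complex.mul_conj]
  simp

lemma gmet_add_left (z v v' w : Cn n) :
    gmet P Q z (v + v') w = gmet P Q z v w + gmet P Q z v' w := by
  simp only [gmet, ip_add_left]
  rw [← Complex.add_re]
  congr 1; ring

lemma gmet_smul_left (z : Cn n) (c : ℝ) (v w : Cn n) :
    gmet P Q z (c • v) w = c * gmet P Q z v w := by
  simp only [gmet, ip_rsmul_left]
  rw [← Complex.re_ofReal_mul]
  congr 1; ring

lemma gmet_symm (z v w : Cn n) : gmet P Q z v w = gmet P Q z w v := by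
  simp only [gmet]
  rw [← Complex.conj_re]
  congr 1
  simp only [map_add, map_mul, Complex.conj_ofReal, ip_conj]
  ring

lemma gmet_herm (z v w : Cn n) :
    gmet P Q z (Complex.I • v) (Complex.I • w) = gmet P Q z v w := by
  simp only [gmet, ip_smul_left, ip_smul_right]
  congr 1
  simp only [Complex.conj_I]
  have : Complex.I * Complex.I = -1 := Complex.I_mul_I
  linear_combination (-(P (esq z) : ℂ) * ip v w - (Q (esq z) : ℂ) * (ip v z * ip z w)) * this

lemma gmet_lower {z v : Cn n} (hP : 0 ≤ P (esq z) ) (hPQ : 0 ≤ P (esq z) + esq z * Q (esq z)) :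
    0 ≤ gmet P Q z v v := by
  rw [gmet_self]
  have h := normSq_ip_le v z
  have h0 := Complex.normSq_nonneg (ip v z)
  have h1 := sq_nonneg' v
  have h2 := sq_nonneg' z
  by_cases hQ : 0 ≤ Q (esq z)
  · positivity
  · push Not at hQ
    nlinarith [mul_nonneg hPQ h1, mul_nonneg (neg_nonneg.2 hQ.le) (sub_nonneg.2 h)]

lemma gmet_pos {z v : Cn n} (hP : 0 < P (esq z) ) (hPQ : 0 < P (esq z) + esq z * Q (esq z))
    (hv : v ≠ 0) : 0 < gmet P Q z v v := by
  rw [gmet_self]
  have h := normSq_ip_le v z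
  have h0 := Complex.normSq_nonneg (ip v z)
  have h1 : 0 < esq v := sq_pos.2 hv
  have h2 := sq_nonneg' z
  by_cases hQ : 0 ≤ Q (esq z)
  · positivity
  · push Not at hQ
    nlinarith [mul_pos hPQ h1, mul_nonneg (neg_nonneg.2 hQ.le) (sub_nonneg.2 h)]

lemma HD_gmet {z : Cn n} {P' Q' : ℝ} (hP : HasDerivAt P P' (esq z)) (hQ : HasDerivAt Q Q' (esq z))
    (v w : Cn n) :
    HD (fun y => gmet P Q y v w)
      (fun x => (((P' * (2 * (ip x z).re) : ℝ) : ℂ) * ip v w
        + (((Q' * (2 * (ip x z).re) : ℝ) : ℂ) * (ip v z * ip z w)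
          + (Q (esq z) : ℂ) * (ip v x * ip z w + ip v z * ip x w))).re) z := by
  unfold gmet
  apply HD.re
  have h1 := (((HD_sq z).comp hP).ofReal).mul (HD.const (z := z) (ip v w))
  have h2 := (((HD_sq z).comp hQ).ofReal).mul ((HD.ip_right (z := z) v).mul
    (HD.ip_left (z := z) w))
  refine (h1.add h2).congr fun x => ?_
  simp

lemma dmetric_gmet {z : Cn n} {P' Q' : ℝ} (hP : HasDerivAt P P' (esq z))
    (hQ : HasDerivAt Q Q' (esq z)) (x v w : Cn n) :
    dmetric (gmet P Q) z x v w = (((P' * (2 * (ip x z).re) : ℝ) : ℂ) * ip v w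
        + (((Q' * (2 * (ip x z).re) : ℝ) : ℂ) * (ip v z * ip z w)
          + (Q (esq z) : ℂ) * (ip v x * ip z w + ip v z * ip x w))).re :=
  (HD_gmet hP hQ v w).fderiv x

lemma gmet_closed {z : Cn n} {Q' : ℝ} (hP : HasDerivAt P (Q (esq z)) (esq z))
    (hQ : HasDerivAt Q Q' (esq z)) (x v w : Cn n) :
    dmetric (gmet P Q) z x (Complex.I • v) w + dmetric (gmet P Q) z v (Complex.I • w) x
    + dmetric (gmet P Q) z w (Complex.I • x) v = 0 := by
  rw [dmetric_gmet hP hQ, dmetric_gmet hP hQ, dmetric_gmet hP hQ]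
  simp only [ip_smul_left]
  rw [← ip_conj v z, ← ip_conj w z, ← ip_conj x z, ← ip_conj x v, ← ip_conj v w,
    ← ip_conj w x]
  simp only [Complex.add_re, Complex.mul_re, Complex.mul_im, Complex.add_im, Complex.ofReal_re,
    Complex.ofReal_im, Complex.conj_re, Complex.conj_im, Complex.I_re, Complex.I_im]
  ring

/-- Christoffel symbols of a rotation invariant metric. -/
noncomputable def chr (A C : ℝ → ℝ) (z x v : Cn n) : Cn n :=
  (A (esq z) : ℂ) • (ip x z • v + ip v z • x) + ((C (esq z) : ℂ) * (ip x z * ip v z)) • z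

variable {A C : ℝ → ℝ}

lemma chr_leviCivita {z : Cn n} {Q' : ℝ} (hP : HasDerivAt P (Q (esq z)) (esq z))
    (hQ : HasDerivAt Q Q' (esq z)) (hA : A (esq z) * P (esq z) = Q (esq z))
    (hC : C (esq z) * (P (esq z) + esq z * Q (esq z)) + 2 * A (esq z) * Q (esq z) = Q')
    (x v w : Cn n) :
    2 * gmet P Q z (chr A C z x v) w = dmetric (gmet P Q) z x v w + dmetric (gmet P Q) z v x w
      - dmetric (gmet P Q) z w x v := by
  rw [dmetric_gmet hP hQ, dmetric_gmet hP hQ, dmetric_gmet hP hQ]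
  simp only [gmet, chr, ip_add_left, ip_smul_left, ip_self]
  rw [← hC, ← hA]
  rw [← ip_conj w z, ← ip_conj v z, ← ip_conj x v, ← ip_conj w x, ← ip_conj v w]
  simp only [Complex.add_re, Complex.mul_re, Complex.mul_im, Complex.add_im, Complex.ofReal_re,
    Complex.ofReal_im, Complex.conj_re, Complex.conj_im]
  ring

end Pool.Agent.Helper206.Bottom
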