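import Mathlib
import Pool.Agent.Helper206.Bottom.Metric

set_option autoImplicit false

namespace Pool.Agent.Helper206.Bottom

open Set MeasureTheory Filter
open scoped Topology ContDiff ComplexConjugate ENNReal

variable {n : ℕ}

/-- Real trace of a map. -/
noncomputable def rtr (T : Cn n → Cn n) : ℝ :=
  ∑ a, ((T (Pi.single a 1) a).re + (T (Pi.single a Complex.I) a).im)

lemma rtr_add (T S : Cn n → Cn n) : rtr (fun u => T u + S u) = rtr T + rtr S := by
  unfold rtr
  rw [← Finset.sum_add_distrib]
  refine Finset.sum_congr rfl fun a _ => ?_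
  simp; ring

lemma ip_single_left (a : Fin n) (c : ℂ) (x : Cn n) :
    ip (Pi.single a c) x = c * conj (x a) := by
  unfold ip
  rw [Finset.sum_eq_single a]
  · simp
  · intro b _ hb; simp [Pi.single_eq_of_ne hb]
  · simp

lemma ip_single_right (a : Fin n) (c : ℂ) (x : Cn n) :
    ip x (Pi.single a c) = conj c * x a := by
  rw [← ip_conj, ip_single_left, map_mul, Complex.conj_conj]

lemma rtr_lin (c : ℂ) (x w : Cn n) :
    rtr (fun u => (c * ip u x) • w) = 2 * (c * ip w x).re := by
  unfold rtr
  have : c * ip w x = ∑ a, c * (w a * conj (x a)) := by rw [ip, Finset.mul_sum]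
  rw [this, Complex.re_sum, Finset.mul_sum]
  refine Finset.sum_congr rfl fun a _ => ?_
  simp only [ip_single_left, Pi.smul_apply, smul_eq_mul]
  simp only [Complex.mul_re, Complex.mul_im, Complex.conj_re, Complex.conj_im, Complex.I_re,
    Complex.I_im, Complex.one_re, Complex.one_im]
  ring

lemma rtr_anti (c : ℂ) (x w : Cn n) : rtr (fun u => (c * ip x u) • w) = 0 := by
  unfold rtr
  refine Finset.sum_eq_zero fun a _ => ?_
  simp only [ip_single_right, Pi.smul_apply, smul_eq_mul]
  simp only [Complex.mul_re, Complex.mul_im, Complex.conj_re, Complex.conj_im, Complex.I_re,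
    Complex.I_im, Complex.one_re, Complex.one_im]
  ring

lemma rtr_id (c : ℂ) : rtr (fun u : Cn n => c • u) = 2 * n * c.re := by
  unfold rtr
  have : ∀ a : Fin n, ((c • (Pi.single a 1 : Cn n)) a).re
      + ((c • (Pi.single a Complex.I : Cn n)) a).im = 2 * c.re := by
    intro a; simp; ring
  rw [Finset.sum_congr rfl fun a _ => this a]
  simp; ring

variable {A C : ℝ → ℝ}

lemma two_re (u z : Cn n) : ((2 * (ip u z).re : ℝ) : ℂ) = ip u z + ip z u := by
  rw [← ip_conj u z]
  apply Complex.ext <;> simp [two_mul]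

lemma HD_chr {z : Cn n} {A' C' : ℝ} (hA : HasDerivAt A A' (esq z)) (hC : HasDerivAt C C' (esq z))
    (v w : Cn n) :
    HD (fun y => chr A C y v w)
      (fun u => ((A' : ℂ) * (ip u z + ip z u)) • (ip v z • w + ip w z • v)
        + (A (esq z) : ℂ) • (ip v u • w + ip w u • v)
        + (((C' : ℂ) * (ip u z + ip z u)) * (ip v z * ip w z)
            + (C (esq z) : ℂ) * (ip v u * ip w z + ip v z * ip w u)) • z
        + ((C (esq z) : ℂ) * (ip v z * ip w z)) • u) z := by
  unfold chr
  have hA1 := ((HD_sq z).comp hA).ofReal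
  have hC1 := ((HD_sq z).comp hC).ofReal
  have hb := HD.ip_right (z := z) v
  have hb' := HD.ip_right (z := z) w
  have h1 := hA1.smul ((hb.smul (HD.const (z := z) w)).add (hb'.smul (HD.const (z := z) v)))
  have h2 := (hC1.mul (hb.mul hb')).smul (HD.id (z := z))
  refine (h1.add h2).congr fun u => ?_
  have e := two_re u z
  push_cast at e ⊢
  rw [e]
  simp only [smul_zero, add_zero]
  module

lemma curv_chr {z : Cn n} {A' C' : ℝ} (hA : HasDerivAt A A' (esq z))
    (hC : HasDerivAt C C' (esq z)) (u v : Cn n) (b b' a c s t : ℂ) (hb : b = ip v z)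
    (hb' : b' = ip z v) (ha : a = A (esq z)) (hc : c = C (esq z)) (hs : s = esq z)
    (ht : t = esq v) :
    curv (chr A C) z u v v =
      ((2 * A' * b - A' * (b + b') - c * b + 2 * a ^ 2 * b - a ^ 2 * b - a * (2 * a + c * s) * b)
          * ip u z) • v
        + (-a * ip u v) • v + ((2 * A' * b) * ip z u) • v + ((2 * a) * ip v u) • v
        + ((C' * b ^ 2 - C' * (b + b') * b - c * t) * ip u z) • z
        + (-(c * b) * ip u v) • z + ((C' * b ^ 2) * ip z u) • z + ((2 * c * b) * ip v u) • z
        + (c * b ^ 2 - A' * (b + b') * b - a * t + a * (2 * a + c * s) * b ^ 2 - a ^ 2 * b ^ 2) • u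
      := by
  unfold curv
  rw [(HD_chr hA hC v v).fderiv u, (HD_chr hA hC u v).fderiv v]
  simp only [chr, ip_add_left, ip_smul_left, ip_self]
  rw [← hb, ← hb', ← ha, ← hc, ← hs, ← ht]
  module

/-- Ricci curvature of a rotation invariant Kähler metric. -/
lemma ricci_chr {z : Cn n} {A' C' : ℝ} (hA : HasDerivAt A A' (esq z))
    (hC : HasDerivAt C C' (esq z))
    (hAC : A' = A (esq z) ^ 2 + C (esq z) * (1 + esq z * A (esq z))) (v : Cn n) :
    ricci (chr A C) z v v = -2 * (((1 + n) * A (esq z) + esq z * C (esq z)) * esq v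
      + ((1 + n) * A' + C (esq z) + esq z * C') * Complex.normSq (ip v z)) := by
  have e : ricci (chr A C) z v v = rtr (fun u => curv (chr A C) z u v v) := rfl
  rw [e]
  have h := fun u => curv_chr hA hC u v _ _ _ _ _ _ rfl rfl rfl rfl rfl rfl
  simp only [h, rtr_add, rtr_lin, rtr_anti, rtr_id]
  rw [ip_self, ip_self, ← ip_conj v z]
  simp only [Complex.add_re, Complex.mul_re, Complex.mul_im, Complex.add_im, Complex.ofReal_re,
    Complex.ofReal_im, Complex.conj_re, Complex.conj_im, Complex.sub_re, Complex.sub_im,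
    Complex.neg_re, Complex.neg_im, pow_two, Complex.normSq_apply, Complex.re_ofNat,
    Complex.im_ofNat]
  rw [hAC]
  ring

end Pool.Agent.Helper206.Bottom
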