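import Mathlib
import Pool.Agent.Helper206.Bottom.Ricci

set_option autoImplicit false

namespace Pool.Agent.Helper206.Bottom

open Set MeasureTheory Filter
open scoped Topology ContDiff ComplexConjugate ENNReal

variable {n : ℕ}

/-- `P0 s = 1 / (s * (-log s))`. -/
noncomputable def P0 (s : ℝ) : ℝ := 1 / (s * (-Real.log s))
/-- `Q0` is the derivative of `P0`. -/
noncomputable def Q0 (s : ℝ) : ℝ := (1 + Real.log s) / (s * (-Real.log s)) ^ 2
noncomputable def A0 (s : ℝ) : ℝ := (1 + Real.log s) / (s * (-Real.log s))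
noncomputable def C0 (s : ℝ) : ℝ := 1 / s ^ 2

/-- The punctured ball. -/
def pball (n : ℕ) : Set (Cn n) := {z | 0 < esq z ∧ esq z < 1}

/-- The metric with potential `-log(-log|z|^2)` on the punctured ball. -/
noncomputable def g0 (z v w : Cn n) : ℝ := gmet P0 Q0 z v w

lemma log_neg' {s : ℝ} (h : 0 < s ∧ s < 1) : 0 < -Real.log s := by
  have := Real.log_neg h.1 h.2; linarith

lemma P0_pos {s : ℝ} (h : 0 < s ∧ s < 1) : 0 < P0 s := by
  have := log_neg' h
  have := h.1
  unfold P0; positivity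

lemma PQ0 {s : ℝ} (h : 0 < s ∧ s < 1) : P0 s + s * Q0 s = 1 / (s * (-Real.log s) ^ 2) := by
  have h1 := log_neg' h
  have h2 := h.1
  have h3 : Real.log s ≠ 0 := by intro h; rw [h] at h1; simp at h1
  unfold P0 Q0
  field_simp
  ring

lemma PQ0_pos {s : ℝ} (h : 0 < s ∧ s < 1) : 0 < P0 s + s * Q0 s := by
  rw [PQ0 h]
  have := log_neg' h
  have := h.1
  positivity

lemma hasDerivAt_den {s : ℝ} (h : 0 < s ∧ s < 1) :
    HasDerivAt (fun s => s * (-Real.log s)) (-Real.log s - 1) s := by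
  have h2 := h.1
  have := (hasDerivAt_id s).mul (Real.hasDerivAt_log h2.ne').neg
  refine HasDerivAt.congr_deriv this ?_
  simp only [id, Pi.neg_apply]; field_simp; ring

lemma den_ne {s : ℝ} (h : 0 < s ∧ s < 1) : s * (-Real.log s) ≠ 0 := by
  have := log_neg' h
  have := h.1
  positivity

lemma hasDerivAt_P0 {s : ℝ} (h : 0 < s ∧ s < 1) : HasDerivAt P0 (Q0 s) s := by
  have h1 := (hasDerivAt_den h).inv (den_ne h)
  have h2 : P0 = fun s => (s * (-Real.log s))⁻¹ := by funext s; simp [P0]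
  rw [h2]
  refine HasDerivAt.congr_deriv h1 ?_
  unfold Q0
  ring

lemma hasDerivAt_Q0 {s : ℝ} (h : 0 < s ∧ s < 1) :
    HasDerivAt Q0 (C0 s * (P0 s + s * Q0 s) + 2 * A0 s * Q0 s) s := by
  have h2 := h.1
  have h3 := log_neg' h
  have h4 : Real.log s ≠ 0 := by intro h; rw [h] at h3; simp at h3
  have h1 := (((Real.hasDerivAt_log h2.ne').const_add 1).div ((hasDerivAt_den h).pow 2)
    (pow_ne_zero 2 (den_ne h)))
  refine HasDerivAt.congr_deriv h1 ?_
  unfold Q0 P0 C0 A0
  simp only [Nat.cast_ofNat, Nat.add_one_sub_one, pow_one, Pi.pow_apply]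
  field_simp
  ring

lemma hasDerivAt_A0 {s : ℝ} (h : 0 < s ∧ s < 1) :
    HasDerivAt A0 (A0 s ^ 2 + C0 s * (1 + s * A0 s)) s := by
  have h2 := h.1
  have h3 := log_neg' h
  have h4 : Real.log s ≠ 0 := by intro h; rw [h] at h3; simp at h3
  have h1 := (((Real.hasDerivAt_log h2.ne').const_add 1).div (hasDerivAt_den h) (den_ne h))
  refine HasDerivAt.congr_deriv h1 ?_
  unfold C0 A0
  field_simp
  ring

lemma hasDerivAt_C0 {s : ℝ} (h : 0 < s ∧ s < 1) : HasDerivAt C0 (-2 / s ^ 3) s := by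
  have h2 := h.1
  have h1 := (hasDerivAt_pow 2 s).inv (pow_ne_zero 2 h2.ne')
  have h3 : C0 = fun s => (s ^ 2)⁻¹ := by funext s; simp [C0]
  rw [h3]
  refine HasDerivAt.congr_deriv h1 ?_
  field_simp
  simp
  ring

lemma AP0 {s : ℝ} (h : 0 < s ∧ s < 1) : A0 s * P0 s = Q0 s := by
  unfold A0 P0 Q0
  have := den_ne h
  field_simp

lemma isOpen_pball : IsOpen (pball n) :=
  (isOpen_lt continuous_const continuous_sq).inter (isOpen_lt continuous_sq continuous_const)

lemma contDiffOn_P0 : ContDiffOn ℝ ∞ P0 (Ioo 0 1) := by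
  unfold P0
  apply ContDiffOn.div contDiffOn_const
  · exact contDiffOn_id.mul ((Real.contDiffOn_log.mono (by
      intro s hs; exact (ne_of_gt hs.1 : s ≠ 0))).neg)
  · intro s hs; exact den_ne hs

lemma contDiffOn_Q0 : ContDiffOn ℝ ∞ Q0 (Ioo 0 1) := by
  unfold Q0
  have h1 : ContDiffOn ℝ ∞ Real.log (Ioo 0 1) := Real.contDiffOn_log.mono (by
      intro s hs; exact (ne_of_gt hs.1 : s ≠ 0))
  apply ContDiffOn.div (contDiffOn_const.add h1)
  · exact (contDiffOn_id.mul h1.neg).pow 2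
  · intro s hs; exact pow_ne_zero 2 (den_ne hs)

lemma contDiffOn_comp_sq {f : ℝ → ℝ} (hf : ContDiffOn ℝ ∞ f (Ioo 0 1)) :
    ContDiffOn ℝ ∞ (fun z : Cn n => f (esq z)) (pball n) :=
  hf.comp contDiff_sq.contDiffOn (fun _ hz => hz)

lemma contDiff_ip_left (w : Cn n) : ContDiff ℝ ∞ (fun y => ip y w) := by
  let L : Cn n →ₗ[ℝ] ℂ :=
    { toFun := fun u : Cn n => ip u w
      map_add' := fun u v => ip_add_left u v w
      map_smul' := fun c v => by simp [ip_rsmul_left] }
  exact (LinearMap.toContinuousLinearMap L).contDiff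

lemma contDiff_ip_right (v : Cn n) : ContDiff ℝ ∞ (fun y => ip v y) := by
  let L : Cn n →ₗ[ℝ] ℂ :=
    { toFun := fun u : Cn n => ip v u
      map_add' := fun u w => ip_add_right v u w
      map_smul' := fun c w => by simp [ip_rsmul_right] }
  exact (LinearMap.toContinuousLinearMap L).contDiff

lemma g0_smooth (v w : Cn n) : ContDiffOn ℝ ∞ (fun z => g0 z v w) (pball n) := by
  refine Complex.reCLM.contDiff.comp_contDiffOn
    (g := Complex.reCLM)
    (f := fun z => (P0 (esq z) : ℂ) * ip v w + (Q0 (esq z) : ℂ) * (ip v z * ip z w)) ?_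
  apply ContDiffOn.add
  · exact (Complex.ofRealCLM.contDiff.comp_contDiffOn (contDiffOn_comp_sq contDiffOn_P0)).mul
      contDiffOn_const
  · exact (Complex.ofRealCLM.contDiff.comp_contDiffOn (contDiffOn_comp_sq contDiffOn_Q0)).mul
      ((contDiff_ip_right v).contDiffOn.mul (contDiff_ip_left w).contDiffOn)

lemma g0_isKahler : IsKahlerMetric (pball n) (g0 (n := n)) where
  add_left := fun z _ v v' w => gmet_add_left z v v' w
  smul_left := fun z _ c v w => gmet_smul_left z c v w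
  symm := fun z _ v w => gmet_symm z v w
  pos := fun z hz v hv => gmet_pos (P0_pos hz) (PQ0_pos hz) hv
  hermitian := fun z _ v w => gmet_herm z v w
  smooth := g0_smooth
  closed := fun z hz x v w => gmet_closed (hasDerivAt_P0 hz) (hasDerivAt_Q0 hz) x v w

lemma g0_self {z : Cn n} (hz : z ∈ pball n) (v : Cn n) :
    g0 z v v = 1 / (-Real.log (esq z)) * (esq v / esq z - Complex.normSq (ip v z) / esq z ^ 2)
      + Complex.normSq (ip v z) / (esq z ^ 2 * (-Real.log (esq z)) ^ 2) := by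
  have h1 := hz.1
  have h3 := log_neg' hz
  have h4 : Real.log (esq z) ≠ 0 := by intro h; rw [h] at h3; simp at h3
  unfold g0
  rw [gmet_self]
  unfold P0 Q0
  field_simp
  ring

lemma g0_ricci : RicciBoundedBelow (pball n) (g0 (n := n)) (-2 * (n + 1)) := by
  refine ⟨chr A0 C0, fun z hz x v w => ?_, fun z hz v => ?_⟩
  · exact chr_leviCivita (hasDerivAt_P0 hz) (hasDerivAt_Q0 hz) (AP0 hz) rfl x v w
  · rw [ricci_chr (hasDerivAt_A0 hz) (hasDerivAt_C0 hz) rfl, g0_self hz]
    have h1 := hz.1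
    have h3 := log_neg' hz
    have h4 : Real.log (esq z) ≠ 0 := by intro h; rw [h] at h3; simp at h3
    have h5 := normSq_ip_le v z
    have e : -2 * (((1 + (n : ℝ)) * A0 (esq z) + esq z * C0 (esq z)) * esq v
        + ((1 + n) * (A0 (esq z) ^ 2 + C0 (esq z) * (1 + esq z * A0 (esq z))) + C0 (esq z)
          + esq z * (-2 / esq z ^ 3)) * Complex.normSq (ip v z))
        = -2 * (n + 1) * (1 / (-Real.log (esq z)) * (esq v / esq z - Complex.normSq (ip v z) / esq z ^ 2)
      + Complex.normSq (ip v z) / (esq z ^ 2 * (-Real.log (esq z)) ^ 2))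
        + 2 * n * ((esq v * esq z - Complex.normSq (ip v z)) / esq z ^ 2) := by
      unfold A0 C0
      field_simp
      ring
    rw [e]
    have : 0 ≤ 2 * (n : ℝ) * ((esq v * esq z - Complex.normSq (ip v z)) / esq z ^ 2) := by
      have : 0 ≤ esq v * esq z - Complex.normSq (ip v z) := by linarith
      positivity
    linarith

end Pool.Agent.Helper206.Bottom
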