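import Mathlib
import Pool.Agent.Helper206.Bottom.Cusp

set_option autoImplicit false

namespace Pool.Agent.Helper206.Bottom

open Set MeasureTheory Filter
open scoped Topology ContDiff ComplexConjugate ENNReal

variable {n : ℕ}

lemma g0_nonneg {z : Cn n} (hz : z ∈ pball n) (v : Cn n) : 0 ≤ g0 z v v :=
  gmet_lower (P0_pos hz).le (PQ0_pos hz).le

/-- speed is continuous -/
lemma continuous_speed {γ : ℝ → Cn n} (h : ContDiff ℝ 1 γ)
    (hX : ∀ t ∈ Icc (0 : ℝ) 1, γ t ∈ pball n) :
    ContinuousOn (fun t => Real.sqrt (g0 (γ t) (deriv γ t) (deriv γ t))) (Icc 0 1) := by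
  have hd : Continuous (deriv γ) := h.continuous_deriv le_rfl
  have hc : Continuous γ := h.continuous
  apply ContinuousOn.sqrt
  have e : (fun t => g0 (γ t) (deriv γ t) (deriv γ t)) = fun t =>
      P0 (esq (γ t)) * esq (deriv γ t) + Q0 (esq (γ t)) * Complex.normSq (ip (deriv γ t) (γ t)) := by
    funext t; exact gmet_self _ _
  rw [e]
  have h1 : ContinuousOn (fun t => P0 (esq (γ t))) (Icc 0 1) :=
    contDiffOn_P0.continuousOn.comp (continuous_sq.comp hc).continuousOn
      (fun t ht => (hX t ht))
  have h2 : ContinuousOn (fun t => Q0 (esq (γ t))) (Icc 0 1) :=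
    contDiffOn_Q0.continuousOn.comp (continuous_sq.comp hc).continuousOn
      (fun t ht => (hX t ht))
  have h3 : Continuous fun t => ip (deriv γ t) (γ t) := by
    unfold ip
    exact continuous_finsetSum _ fun a _ => ((continuous_apply a).comp hd).mul
      (Complex.continuous_conj.comp ((continuous_apply a).comp hc))
  exact (h1.mul (continuous_sq.comp hd).continuousOn).add
    (h2.mul (Complex.continuous_normSq.comp h3).continuousOn)

/-- A function with gradient of norm at most one is 1-Lipschitz. -/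
lemma lip {F : Cn n → ℝ} {D : Cn n → Cn n → ℝ} (hF : ∀ z ∈ pball n, HD F (D z) z)
    (hD : ∀ z ∈ pball n, ∀ v, |D z v| ≤ Real.sqrt (g0 z v v)) (p q : Cn n) :
    ENNReal.ofReal |F q - F p| ≤ rdist (pball n) g0 p q := by
  unfold rdist
  refine le_iInf fun γ => le_iInf fun hγ => ENNReal.ofReal_le_ofReal ?_
  obtain ⟨h1, h2, h3, h4⟩ := hγ
  have hcont : Continuous γ := h1.continuous
  have hdiff : ∀ t, HasDerivAt γ (deriv γ t) t := fun t =>
    (h1.differentiable (by norm_num) t).hasDerivAt
  have hcomp : ∀ t ∈ Icc (0 : ℝ) 1, HasDerivAt (fun t => F (γ t)) (D (γ t) (deriv γ t)) t := by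
    intro t ht
    obtain ⟨L, hL, hL2⟩ := hF (γ t) (h2 t ht)
    have := hL.comp_hasDerivAt t (hdiff t)
    rw [hL2] at this
    exact this
  have hint : IntegrableOn (fun t => Real.sqrt (g0 (γ t) (deriv γ t) (deriv γ t))) (Icc 0 1) :=
    (continuous_speed h1 h2).integrableOn_compact isCompact_Icc
  have hFc : ContinuousOn (fun t => F (γ t)) (Icc 0 1) :=
    fun t ht => (hcomp t ht).continuousAt.continuousWithinAt
  have k1 := intervalIntegral.sub_le_integral_of_hasDeriv_right_of_le (zero_le_one (α := ℝ)) hFc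
    (fun t ht => (hcomp t (Ioo_subset_Icc_self ht)).hasDerivWithinAt) hint
    (fun t ht => (le_abs_self _).trans (hD _ (h2 t (Ioo_subset_Icc_self ht)) _))
  have k2 := intervalIntegral.sub_le_integral_of_hasDeriv_right_of_le (zero_le_one (α := ℝ))
    hFc.neg (fun t ht => (hcomp t (Ioo_subset_Icc_self ht)).neg.hasDerivWithinAt) hint
    (fun t ht => (neg_le_abs _).trans (hD _ (h2 t (Ioo_subset_Icc_self ht)) _))
  simp only [Pi.neg_apply] at k2
  rw [h3, h4] at k1 k2
  rw [abs_le]
  constructor
  · show -(curveLength g0 γ) ≤ _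
    unfold curveLength; linarith
  · exact k1

/-- Half of `log(-log|z|^2)`. -/
noncomputable def TT (z : Cn n) : ℝ := Real.log (-Real.log (esq z)) / 2

lemma HD_TT {z : Cn n} (hz : z ∈ pball n) :
    HD TT (fun v => -(ip v z).re / (esq z * (-Real.log (esq z)))) z := by
  have h1 := hz.1
  have h2 := log_neg' hz
  have h4 : Real.log (esq z) ≠ 0 := by intro h; rw [h] at h2; simp at h2
  have h3 := ((((Real.hasDerivAt_log h1.ne').neg).log h2.ne').div_const 2)
  have := (HD_sq z).comp h3
  refine this.congr fun v => ?_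
  simp only [Pi.neg_apply]
  field_simp

lemma TT_bound {z : Cn n} (hz : z ∈ pball n) (v : Cn n) :
    |-(ip v z).re / (esq z * (-Real.log (esq z)))| ≤ Real.sqrt (g0 z v v) := by
  apply Real.le_sqrt_of_sq_le
  rw [sq_abs, g0_self hz, div_pow, neg_sq]
  have h1 := hz.1
  have h2 := log_neg' hz
  have h5 : 0 ≤ esq v / esq z - Complex.normSq (ip v z) / esq z ^ 2 := by
    have := normSq_ip_le v z
    have e : esq v / esq z - Complex.normSq (ip v z) / esq z ^ 2
      = (esq v * esq z - Complex.normSq (ip v z)) / esq z ^ 2 := by field_simp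
    rw [e]
    have : 0 ≤ esq v * esq z - Complex.normSq (ip v z) := by linarith
    positivity
  have h6 : 0 ≤ 1 / (-Real.log (esq z)) * (esq v / esq z - Complex.normSq (ip v z) / esq z ^ 2) := by
    positivity
  have h7 : (ip v z).re ^ 2 ≤ Complex.normSq (ip v z) := by
    rw [Complex.normSq_apply]; nlinarith [sq_nonneg (ip v z).im]
  have h8 : (ip v z).re ^ 2 / (esq z * (-Real.log (esq z))) ^ 2
      ≤ Complex.normSq (ip v z) / (esq z ^ 2 * (-Real.log (esq z)) ^ 2) := by
    rw [mul_pow]
    gcongr
  linarith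

lemma TT_lip (p q : Cn n) : ENNReal.ofReal |TT q - TT p| ≤ rdist (pball n) g0 p q :=
  lip (fun _ hz => HD_TT hz) (fun _ hz v => TT_bound hz v) p q

lemma sq_le_g0 {z : Cn n} (hz : z ∈ pball n) (v : Cn n) : esq v ≤ 2 * g0 z v v := by
  rw [g0_self hz]
  have h1 := hz.1
  have h2 := log_neg' hz
  set s := esq z with hs
  set u := -Real.log s with hu
  set b := Complex.normSq (ip v z) with hb
  have h5 : 0 ≤ esq v / s - b / s ^ 2 := by
    have := normSq_ip_le v z
    have e : esq v / s - b / s ^ 2 = (esq v * s - b) / s ^ 2 := by field_simp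
    rw [e]
    have : 0 ≤ esq v * s - b := by linarith
    positivity
  have h0 : 0 ≤ b := Complex.normSq_nonneg _
  have hse : s = Real.exp (-u) := by rw [hu, neg_neg, Real.exp_log h1]
  have h7 : s * (u + u ^ 2) ≤ 2 := by
    have := Real.quadratic_le_exp_of_nonneg h2.le
    rw [hse, Real.exp_neg, inv_mul_le_iff₀ (Real.exp_pos u)]
    nlinarith
  have h8 : s * u ≤ 2 := by nlinarith [mul_pos h1 (pow_pos h2 2)]
  have h9 : s * u ^ 2 ≤ 2 := by nlinarith [mul_pos h1 h2]
  have e : esq v = s * (esq v / s - b / s ^ 2) + b / s := by field_simp; ring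
  have e1 : s * (esq v / s - b / s ^ 2) ≤ 2 * (1 / u * (esq v / s - b / s ^ 2)) := by
    have : s ≤ 2 * (1 / u) := by rw [mul_one_div, le_div_iff₀ h2]; exact h8
    calc s * (esq v / s - b / s ^ 2) ≤ (2 * (1 / u)) * (esq v / s - b / s ^ 2) := by gcongr
      _ = _ := by ring
  have e2 : b / s ≤ 2 * (b / (s ^ 2 * u ^ 2)) := by
    rw [div_le_iff₀ h1]
    have : 2 * (b / (s ^ 2 * u ^ 2)) * s = b * (2 / (s * u ^ 2)) := by field_simp
    rw [this]
    have : 1 ≤ 2 / (s * u ^ 2) := by rw [le_div_iff₀ (by positivity)]; linarith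
    nlinarith
  linarith

lemma coord_bound {z : Cn n} (hz : z ∈ pball n) (v : Cn n) (a : Fin n) :
    |(v a).re / 2| ≤ Real.sqrt (g0 z v v) ∧ |(v a).im / 2| ≤ Real.sqrt (g0 z v v) := by
  have h := sq_le_g0 hz v
  have h1 : Complex.normSq (v a) ≤ esq v :=
    Finset.single_le_sum (fun a _ => Complex.normSq_nonneg (v a)) (Finset.mem_univ a)
  have h2 := g0_nonneg hz v
  rw [Complex.normSq_apply] at h1
  constructor
  · apply Real.le_sqrt_of_sq_le
    rw [sq_abs]; nlinarith [sq_nonneg (v a).im, sq_nonneg (v a).re]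
  · apply Real.le_sqrt_of_sq_le
    rw [sq_abs]; nlinarith [sq_nonneg (v a).im, sq_nonneg (v a).re]

lemma coord_lip (a : Fin n) (p q : Cn n) :
    ENNReal.ofReal (‖q a - p a‖ / 4) ≤ rdist (pball n) g0 p q := by
  have h1 : ENNReal.ofReal |(q a).re / 2 - (p a).re / 2| ≤ rdist (pball n) g0 p q :=
    lip (F := fun y : Cn n => (y a).re / 2) (D := fun _ v => (v a).re / 2)
      (fun z _ => HD.of_linear (z := z) ({
        toFun := fun y : Cn n => (y a).re / 2
        map_add' := fun x y => by simp [add_div]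
        map_smul' := fun c x => by simp [mul_div_assoc] } : Cn n →ₗ[ℝ] ℝ))
      (fun z hz v => (coord_bound hz v a).1) p q
  have h2 : ENNReal.ofReal |(q a).im / 2 - (p a).im / 2| ≤ rdist (pball n) g0 p q :=
    lip (F := fun y : Cn n => (y a).im / 2) (D := fun _ v => (v a).im / 2)
      (fun z _ => HD.of_linear (z := z) ({
        toFun := fun y : Cn n => (y a).im / 2
        map_add' := fun x y => by simp [add_div]
        map_smul' := fun c x => by simp [mul_div_assoc] } : Cn n →ₗ[ℝ] ℝ))
      (fun z hz v => (coord_bound hz v a).2) p q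
  have h3 : ‖q a - p a‖ / 4 ≤ max |(q a).re / 2 - (p a).re / 2| |(q a).im / 2 - (p a).im / 2| := by
    have := Complex.norm_le_abs_re_add_abs_im (q a - p a)
    have e1 : |(q a).re / 2 - (p a).re / 2| = |(q a - p a).re| / 2 := by
      rw [Complex.sub_re, ← sub_div, abs_div]; norm_num
    have e2 : |(q a).im / 2 - (p a).im / 2| = |(q a - p a).im| / 2 := by
      rw [Complex.sub_im, ← sub_div, abs_div]; norm_num
    rw [e1, e2]
    rcases le_total (|(q a - p a).re| / 2) (|(q a - p a).im| / 2) with h | h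
    · rw [max_eq_right h]; linarith
    · rw [max_eq_left h]; linarith
  refine (ENNReal.ofReal_le_ofReal h3).trans ?_
  rcases le_total |(q a).re / 2 - (p a).re / 2| |(q a).im / 2 - (p a).im / 2| with h | h
  · rw [max_eq_right h]; exact h2
  · rw [max_eq_left h]; exact h1

/-- Upper bound for the metric. -/
noncomputable def upc (z : Cn n) : ℝ := P0 (esq z) + |Q0 (esq z)| * esq z

lemma g0_le {z : Cn n} (v : Cn n) : g0 z v v ≤ upc z * esq v := by
  unfold g0 upc
  rw [gmet_self]
  have := normSq_ip_le v z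
  have h0 := Complex.normSq_nonneg (ip v z)
  have h1 : Q0 (esq z) * Complex.normSq (ip v z) ≤ |Q0 (esq z)| * (esq v * esq z) := by
    calc _ ≤ |Q0 (esq z)| * Complex.normSq (ip v z) :=
          mul_le_mul_of_nonneg_right (le_abs_self _) h0
      _ ≤ _ := mul_le_mul_of_nonneg_left this (abs_nonneg _)
  nlinarith

lemma continuousOn_upc : ContinuousOn (upc : Cn n → ℝ) (pball n) := by
  unfold upc
  exact (contDiffOn_comp_sq contDiffOn_P0).continuousOn.add
    ((contDiffOn_comp_sq contDiffOn_Q0).continuousOn.abs.mul continuous_sq.continuousOn)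

/-- Segments give an upper bound for the distance. -/
lemma rdist_le_of_segment {p q : Cn n} {c : ℝ}
    (h : ∀ t ∈ Icc (0 : ℝ) 1, p + t • (q - p) ∈ pball n ∧ upc (p + t • (q - p)) ≤ c) :
    rdist (pball n) g0 p q ≤ ENNReal.ofReal (Real.sqrt (c * esq (q - p))) := by
  have hd : ∀ t : ℝ, HasDerivAt (fun t : ℝ => p + t • (q - p)) (q - p) t := by
    intro t
    simpa using ((hasDerivAt_id t).smul_const (q - p)).const_add p
  have hγ : ContDiff ℝ 1 (fun t : ℝ => p + t • (q - p)) :=
    contDiff_const.add (contDiff_id.smul contDiff_const)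
  have hder : deriv (fun t : ℝ => p + t • (q - p)) = fun _ => q - p := by
    funext t; exact (hd t).deriv
  unfold rdist
  refine (iInf₂_le (fun t : ℝ => p + t • (q - p)) ⟨hγ, fun t ht => (h t ht).1, by simp,
    by simp⟩).trans (ENNReal.ofReal_le_ofReal ?_)
  unfold curveLength
  rw [hder]
  have hc : ContinuousOn (fun t : ℝ => Real.sqrt (g0 (p + t • (q - p)) (q - p) (q - p)))
      (Icc 0 1) := by
    have := continuous_speed hγ (fun t ht => (h t ht).1)
    rw [hder] at this
    exact this
  have := intervalIntegral.integral_mono_on (a := 0) (b := 1) (μ := volume) zero_le_one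
    (f := fun t : ℝ => Real.sqrt (g0 (p + t • (q - p)) (q - p) (q - p)))
    (g := fun _ => Real.sqrt (c * esq (q - p)))
    (hc.intervalIntegrable_of_Icc zero_le_one) intervalIntegrable_const
    (fun t ht => Real.sqrt_le_sqrt ((g0_le _).trans
      (mul_le_mul_of_nonneg_right (h t ht).2 (sq_nonneg' _))))
  simpa using this

lemma g0_complete : IsCompleteMetric (pball n) (g0 (n := n)) := by
  intro x hx hC
  -- convergence in complex space
  have hcau : CauchySeq x := by
    rw [Metric.cauchySeq_iff]
    intro ε hε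
    obtain ⟨N, hN⟩ := hC (ENNReal.ofReal (ε / 8)) (by simpa using by positivity)
    refine ⟨N, fun j hj k hk => ?_⟩
    rw [dist_pi_lt_iff hε]
    intro a
    have h1 := (coord_lip a (x j) (x k)).trans_lt (hN j hj k hk)
    rw [ENNReal.ofReal_lt_ofReal_iff (by positivity)] at h1
    rw [dist_comm, dist_eq_norm]
    linarith
  obtain ⟨y, hy⟩ := cauchySeq_tendsto_of_complete hcau
  -- the limit is in the punctured ball
  have hymem : y ∈ pball n := by
    obtain ⟨N, hN⟩ := hC (ENNReal.ofReal 1) (by simp)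
    have h1 : ∀ k ≥ N, |TT (x k) - TT (x N)| < 1 := by
      intro k hk
      have := (TT_lip (x N) (x k)).trans_lt (hN N le_rfl k hk)
      rwa [ENNReal.ofReal_lt_ofReal_iff one_pos] at this
    set M := TT (x N)
    have h2 : ∀ k ≥ N, esq (x k) ∈ Icc (Real.exp (-Real.exp (2 * (M + 1))))
        (Real.exp (-Real.exp (2 * (M - 1)))) := by
      intro k hk
      have h3 := abs_lt.1 (h1 k hk)
      have hu := log_neg' (hx k)
      have e1 : -Real.log (esq (x k)) = Real.exp (2 * TT (x k)) := by
        unfold TT; rw [mul_div_cancel₀ _ (two_ne_zero), Real.exp_log hu]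
      have e2 : esq (x k) = Real.exp (-Real.exp (2 * TT (x k))) := by
        rw [← e1, neg_neg, Real.exp_log (hx k).1]
      rw [e2]
      constructor
      · apply Real.exp_le_exp.2
        apply neg_le_neg
        apply Real.exp_le_exp.2
        linarith
      · apply Real.exp_le_exp.2
        apply neg_le_neg
        apply Real.exp_le_exp.2
        linarith
    have h3 : esq y ∈ Icc (Real.exp (-Real.exp (2 * (M + 1))))
        (Real.exp (-Real.exp (2 * (M - 1)))) := by
      apply isClosed_Icc.mem_of_tendsto ((continuous_sq.tendsto y).comp hy)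
      filter_upwards [eventually_ge_atTop N] with k hk using h2 k hk
    refine ⟨lt_of_lt_of_le (Real.exp_pos _) h3.1, lt_of_le_of_lt h3.2 ?_⟩
    rw [Real.exp_lt_one_iff]
    simpa using Real.exp_pos _
  refine ⟨y, hymem, ?_⟩
  -- convergence in distance
  have hopen : IsOpen {z | z ∈ pball n ∧ upc z < upc y + 1} := by
    have := continuousOn_upc.isOpen_inter_preimage (isOpen_pball (n := n))
      (isOpen_Iio (a := upc y + 1))
    exact this
  obtain ⟨δ, hδ, hball⟩ := Metric.isOpen_iff.1 hopen y ⟨hymem, by simp⟩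
  have hup : ∀ᶠ k in atTop, rdist (pball n) g0 (x k) y
      ≤ ENNReal.ofReal (Real.sqrt ((upc y + 1) * esq (y - x k))) := by
    filter_upwards [Metric.tendsto_nhds.1 hy δ hδ] with k hk
    apply rdist_le_of_segment
    intro t ht
    have hmem : x k + t • (y - x k) ∈ Metric.ball y δ := by
      have h1 : x k + t • (y - x k) = (1 - t) • x k + t • y := by
        rw [smul_sub, sub_smul, one_smul]; abel
      rw [h1]
      exact (convex_ball y δ) (by simpa using hk) (Metric.mem_ball_self hδ)
        (by linarith [ht.2]) ht.1 (by ring)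
    have := hball hmem
    exact ⟨this.1, this.2.le⟩
  have hlim : Tendsto (fun k => ENNReal.ofReal (Real.sqrt ((upc y + 1) * esq (y - x k)))) atTop
      (𝓝 0) := by
    have h1 : Tendsto (fun k => esq (y - x k)) atTop (𝓝 (esq (y - y))) :=
      (continuous_sq.tendsto _).comp (tendsto_const_nhds.sub hy)
    have h2 : Tendsto (fun k => Real.sqrt ((upc y + 1) * esq (y - x k))) atTop
        (𝓝 (Real.sqrt ((upc y + 1) * esq (y - y)))) :=
      (Real.continuous_sqrt.tendsto _).comp (tendsto_const_nhds.mul h1)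
    have h3 := ENNReal.tendsto_ofReal h2
    simpa using h3
  exact tendsto_of_tendsto_of_tendsto_of_le_of_le' tendsto_const_nhds hlim
    (Eventually.of_forall fun _ => bot_le) hup

end Pool.Agent.Helper206.Bottom
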