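import Mathlib
import Pool.Agent.Helper206.Bottom.Dist

set_option autoImplicit false

namespace Pool.Agent.Helper206.Bottom

open Set MeasureTheory Filter
open scoped Topology ContDiff ComplexConjugate ENNReal

variable {n : ℕ}

lemma norm_le_sqrt_sq (z : Cn n) : ‖z‖ ≤ Real.sqrt (esq z) := by
  rw [pi_norm_le_iff_of_nonneg (Real.sqrt_nonneg _)]
  intro a
  apply Real.le_sqrt_of_sq_le
  rw [← Complex.normSq_eq_norm_sq]
  exact Finset.single_le_sum (fun a _ => Complex.normSq_nonneg (z a)) (Finset.mem_univ a)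

lemma isCompact_preimage_sq {J : Set ℝ} (hJ : IsCompact J) : IsCompact {z : Cn n | esq z ∈ J} := by
  obtain ⟨c, hc⟩ := hJ.bddAbove
  apply Metric.isCompact_of_isClosed_isBounded
  · exact hJ.isClosed.preimage continuous_sq
  · rw [isBounded_iff_forall_norm_le]
    exact ⟨Real.sqrt c, fun z hz => (norm_le_sqrt_sq z).trans (Real.sqrt_le_sqrt (hc hz))⟩

lemma one_lt_rank (hn : 2 ≤ n) : 1 < Module.rank ℝ (Cn n) := by
  rw [← Module.finrank_eq_rank, ← Nat.cast_one, Nat.cast_lt]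
  simp [Module.finrank_pi_fintype, Complex.finrank_real_complex]
  omega

/-- Shells are connected. -/
lemma isConnected_shell (hn : 2 ≤ n) {a b : ℝ} (ha : 0 ≤ a) (hab : a < b) :
    IsConnected {z : Cn n | a < esq z ∧ esq z < b} := by
  have h1 : IsConnected (({0}ᶜ : Set (Cn n)) ×ˢ Ioo a b) :=
    (isConnected_compl_singleton_of_one_lt_rank (one_lt_rank hn) 0).prod (isConnected_Ioo hab)
  have h2 := h1.image (fun p : Cn n × ℝ => Real.sqrt (p.2 / esq p.1) • p.1) (by
    have h0 : ContinuousOn (fun p : Cn n × ℝ => Real.sqrt (p.2 / esq p.1))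
        (({0}ᶜ : Set (Cn n)) ×ˢ Ioo a b) := by
      apply ContinuousOn.sqrt
      apply ContinuousOn.div continuousOn_snd (continuous_sq.comp continuous_fst).continuousOn
      rintro ⟨z, c⟩ ⟨hz, _⟩
      exact (sq_pos.2 hz).ne'
    exact h0.smul continuousOn_fst)
  convert! h2 using 1
  ext z
  simp only [mem_setOf_eq, mem_image, mem_prod, mem_compl_iff, mem_singleton_iff, Prod.exists,
    mem_Ioo]
  constructor
  · rintro ⟨h3, h4⟩
    have h5 : 0 < esq z := lt_of_le_of_lt ha h3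
    exact ⟨z, esq z, ⟨sq_pos.1 h5, h3, h4⟩, by rw [div_self h5.ne']; simp⟩
  · rintro ⟨w, c, ⟨hw, h3, h4⟩, rfl⟩
    have h5 : 0 < esq w := sq_pos.2 hw
    have h6 : esq (Real.sqrt (c / esq w) • w) = c := by
      rw [sq_rsmul, Real.sq_sqrt (div_nonneg (ha.trans h3.le) h5.le), div_mul_cancel₀ _ h5.ne']
    rw [h6]; exact ⟨h3, h4⟩

lemma isConnected_pball (hn : 2 ≤ n) : IsConnected (pball n) :=
  isConnected_shell hn le_rfl one_pos

/-- A point with prescribed `esq`. -/
lemma exists_sq (hn : 2 ≤ n) {c : ℝ} (hc : 0 ≤ c) : ∃ z : Cn n, esq z = c := by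
  refine ⟨Pi.single (⟨0, by omega⟩ : Fin n) (Real.sqrt c : ℂ), ?_⟩
  unfold esq
  rw [Finset.sum_eq_single (⟨0, by omega⟩ : Fin n)]
  · simp [Complex.normSq_ofReal, Real.mul_self_sqrt hc]
  · intro b _ hb; simp [Pi.single_eq_of_ne hb]
  · simp

lemma exists_TT (hn : 2 ≤ n) (τ : ℝ) : ∃ z ∈ pball n, TT z = τ ∧
    esq z = Real.exp (-Real.exp (2 * τ)) := by
  obtain ⟨z, hz⟩ := exists_sq hn (Real.exp_pos (-Real.exp (2 * τ))).le
  refine ⟨z, ⟨by rw [hz]; exact Real.exp_pos _, ?_⟩, ?_, hz⟩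
  · rw [hz, Real.exp_lt_one_iff]; simpa using Real.exp_pos _
  · unfold TT
    rw [hz, Real.log_exp, neg_neg, Real.log_exp]; ring

lemma g0_ends (hn : 2 ≤ n) : HasMoreThanOneEnd (pball n) (g0 (n := n)) := by
  set K : Set (Cn n) := {z | esq z ∈ ({Real.exp (-1)} : Set ℝ)} with hK
  have hKc : IsCompact K := isCompact_preimage_sq isCompact_singleton
  have he : Real.exp (-1) < 1 := by rw [Real.exp_lt_one_iff]; norm_num
  have he0 : 0 < Real.exp (-1) := Real.exp_pos _
  have hA : {z : Cn n | 0 < esq z ∧ esq z < Real.exp (-1)} ⊆ pball n \ K := by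
    rintro z ⟨h1, h2⟩
    exact ⟨⟨h1, h2.trans he⟩, fun h => h2.ne h⟩
  have hB : {z : Cn n | Real.exp (-1) < esq z ∧ esq z < 1} ⊆ pball n \ K := by
    rintro z ⟨h1, h2⟩
    exact ⟨⟨he0.trans h1, h2⟩, fun h => h1.ne' h⟩
  have hAc := isConnected_shell hn le_rfl he0
  have hBc := isConnected_shell hn he0.le he
  have hTA : ∀ τ : ℝ, 0 < τ → ∃ z ∈ {z : Cn n | 0 < esq z ∧ esq z < Real.exp (-1)}, TT z = τ := by
    intro τ hτ
    obtain ⟨z, h1, h2, h3⟩ := exists_TT hn τ
    refine ⟨z, ⟨h1.1, ?_⟩, h2⟩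
    rw [h3]
    apply Real.exp_lt_exp.2
    apply neg_lt_neg
    rw [Real.one_lt_exp_iff]; linarith
  have hTB : ∀ τ : ℝ, τ < 0 → ∃ z ∈ {z : Cn n | Real.exp (-1) < esq z ∧ esq z < 1}, TT z = τ := by
    intro τ hτ
    obtain ⟨z, h1, h2, h3⟩ := exists_TT hn τ
    refine ⟨z, ⟨?_, h1.2⟩, h2⟩
    rw [h3]
    apply Real.exp_lt_exp.2
    apply neg_lt_neg
    rw [Real.exp_lt_one_iff]; linarith
  obtain ⟨p, hp, hp'⟩ := hTA 1 one_pos
  obtain ⟨q, hq, hq'⟩ := hTB (-1) (by norm_num)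
  have hAp : {z : Cn n | 0 < esq z ∧ esq z < Real.exp (-1)} ⊆ connectedComponentIn (pball n \ K) p :=
    hAc.isPreconnected.subset_connectedComponentIn hp hA
  have hBq : {z : Cn n | Real.exp (-1) < esq z ∧ esq z < 1} ⊆ connectedComponentIn (pball n \ K) q :=
    hBc.isPreconnected.subset_connectedComponentIn hq hB
  refine ⟨K, ?_, hKc, p, hA hp, q, hB hq, ?_, ?_, ?_⟩
  · intro z hz
    have : esq z = Real.exp (-1) := hz
    exact ⟨by rw [this]; exact he0, by rw [this]; exact he⟩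
  · intro heq
    have h1 : IsPreconnected (connectedComponentIn (pball n \ K) p) :=
      isPreconnected_connectedComponentIn
    have h2 : p ∈ connectedComponentIn (pball n \ K) p := hAp hp
    have h3 : q ∈ connectedComponentIn (pball n \ K) p := by rw [heq]; exact hBq hq
    have h4 := (h1.image esq continuous_sq.continuousOn).ordConnected
    have h5 : Real.exp (-1) ∈ esq '' connectedComponentIn (pball n \ K) p :=
      h4.out (mem_image_of_mem _ h2) (mem_image_of_mem _ h3) ⟨hp.2.le, hq.1.le⟩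
    obtain ⟨z, hz, hz'⟩ := h5
    exact (connectedComponentIn_subset _ _ hz).2 hz'
  · intro R
    obtain ⟨y, hy, hy'⟩ := hTA (|R| + 2) (by positivity)
    refine ⟨p, hAp hp, y, hAp hy, ?_⟩
    refine lt_of_lt_of_le ?_ (TT_lip p y)
    rw [hp', hy']
    rw [ENNReal.ofReal_lt_ofReal_iff (by rw [abs_pos]; have := abs_nonneg R; linarith)]
    have h1 := le_abs_self R
    have h2 := le_abs_self (|R| + 2 - 1)
    linarith
  · intro R
    obtain ⟨y, hy, hy'⟩ := hTB (-(|R| + 2)) (by have := abs_nonneg R; linarith)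
    refine ⟨q, hBq hq, y, hBq hy, ?_⟩
    refine lt_of_lt_of_le ?_ (TT_lip q y)
    rw [hq', hy']
    rw [ENNReal.ofReal_lt_ofReal_iff (by rw [abs_pos]; have := abs_nonneg R; linarith)]
    have h1 := le_abs_self R
    have h2 := neg_le_abs (-(|R| + 2) - -1)
    linarith

lemma not_isCompact_pball (hn : 2 ≤ n) : ¬ IsCompact (pball n) := by
  intro h
  obtain ⟨p, hp⟩ := (isConnected_pball hn).nonempty
  have h1 : pball n = univ := by
    have hcl : IsClopen (pball n) := ⟨h.isClosed, isOpen_pball⟩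
    exact hcl.eq_univ ⟨p, hp⟩
  have h2 : (0 : Cn n) ∈ pball n := by rw [h1]; trivial
  have h3 := h2.1
  simp at h3

end Pool.Agent.Helper206.Bottom
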