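import Mathlib
import Pool.Agent.Helper206.Bottom.Ends

set_option autoImplicit false

namespace Pool.Agent.Helper206.Bottom

open Set Filter
open scoped Topology ContDiff ComplexConjugate

/-- A covering of a union of two simply connected open sets with connected intersection, with
connected total space, is injective. -/
lemma glue {F : Type*} [TopologicalSpace F] {X V₁ V₂ : Set F} (hX : X = V₁ ∪ V₂)
    (ho₁ : IsOpen V₁) (ho₂ : IsOpen V₂)
    [SimplyConnectedSpace V₁] [LocallyPathConnectedSpace V₁]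
    [SimplyConnectedSpace V₂] [LocallyPathConnectedSpace V₂]
    (hc : IsConnected (V₁ ∩ V₂)) {E : Type*} [TopologicalSpace E] [PreconnectedSpace E]
    {p : E → X} (hp : IsCoveringMap p) (hs : Function.Surjective p) : Function.Injective p := by
  have hV₁ : V₁ ⊆ X := by rw [hX]; exact subset_union_left
  have hV₂ : V₂ ⊆ X := by rw [hX]; exact subset_union_right
  obtain ⟨x0, hx0⟩ := hc.nonempty
  obtain ⟨e0, he0⟩ := hs ⟨x0, hV₁ hx0.1⟩
  let i₁ : C(V₁, X) := ⟨inclusion hV₁, continuous_inclusion hV₁⟩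
  let i₂ : C(V₂, X) := ⟨inclusion hV₂, continuous_inclusion hV₂⟩
  obtain ⟨s₁, ⟨hs₁, hs₁'⟩, -⟩ := hp.existsUnique_continuousMap_lifts i₁ ⟨x0, hx0.1⟩ e0 he0
  obtain ⟨s₂, ⟨hs₂, hs₂'⟩, -⟩ := hp.existsUnique_continuousMap_lifts i₂ ⟨x0, hx0.2⟩ e0 he0
  -- agreement on the intersection
  have : PreconnectedSpace ↥(V₁ ∩ V₂) := isPreconnected_iff_preconnectedSpace.1 hc.isPreconnected
  have hagree : (fun x : ↥(V₁ ∩ V₂) => s₁ ⟨x, x.2.1⟩) = fun x : ↥(V₁ ∩ V₂) => s₂ ⟨x, x.2.2⟩ := by
    refine hp.eq_of_comp_eq (A := ↥(V₁ ∩ V₂)) ?_ ?_ ?_ ⟨x0, hx0⟩ ?_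
    · exact s₁.continuous.comp (continuous_subtype_val.subtype_mk _)
    · exact s₂.continuous.comp (continuous_subtype_val.subtype_mk _)
    · funext x
      have h1 := congrFun hs₁' ⟨x, x.2.1⟩
      have h2 := congrFun hs₂' ⟨x, x.2.2⟩
      simp only [Function.comp_apply] at h1 h2 ⊢
      rw [h1, h2]; rfl
    · show s₁ ⟨x0, hx0.1⟩ = s₂ ⟨x0, hx0.2⟩
      rw [hs₁, hs₂]
  have hmem : ∀ x : X, (x : F) ∈ V₁ ∨ (x : F) ∈ V₂ := fun x => hX.le x.2
  classical
  let s : X → E := fun x => if h : (x : F) ∈ V₁ then s₁ ⟨x, h⟩ else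
    s₂ ⟨x, (hmem x).resolve_left h⟩
  have hsV₁ : ∀ (x : X) (h : (x : F) ∈ V₁), s x = s₁ ⟨x, h⟩ := fun x h => dif_pos h
  have hsV₂ : ∀ (x : X) (h : (x : F) ∈ V₂), s x = s₂ ⟨x, h⟩ := by
    intro x h
    by_cases h1 : (x : F) ∈ V₁
    · rw [hsV₁ x h1]
      exact congrFun hagree ⟨x, h1, h⟩
    · exact dif_neg h1
  have hps : ∀ x, p (s x) = x := by
    intro x
    by_cases h1 : (x : F) ∈ V₁
    · rw [hsV₁ x h1]; exact congrFun hs₁' ⟨x, h1⟩
    · have h2 : (x : F) ∈ V₂ := (hmem x).resolve_left h1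
      rw [hsV₂ x h2]; exact congrFun hs₂' ⟨x, h2⟩
  have hcont : Continuous s := by
    rw [continuous_iff_continuousAt]
    intro x
    by_cases h1 : (x : F) ∈ V₁
    · have hW : IsOpen {y : X | (y : F) ∈ V₁} := ho₁.preimage continuous_subtype_val
      have : ContinuousOn s {y : X | (y : F) ∈ V₁} := by
        rw [continuousOn_iff_continuous_restrict]
        have e : ({y : X | (y : F) ∈ V₁}).domRestrict s
            = fun y : {y : X | (y : F) ∈ V₁} => s₁ ⟨y.1, y.2⟩ := by
          funext y; exact hsV₁ y.1 y.2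
        rw [e]
        exact s₁.continuous.comp
          ((continuous_subtype_val.comp continuous_subtype_val).subtype_mk _)
      exact this.continuousAt (hW.mem_nhds h1)
    · have h2 : (x : F) ∈ V₂ := (hmem x).resolve_left h1
      have hW : IsOpen {y : X | (y : F) ∈ V₂} := ho₂.preimage continuous_subtype_val
      have : ContinuousOn s {y : X | (y : F) ∈ V₂} := by
        rw [continuousOn_iff_continuous_restrict]
        have e : ({y : X | (y : F) ∈ V₂}).domRestrict s
            = fun y : {y : X | (y : F) ∈ V₂} => s₂ ⟨y.1, y.2⟩ := by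
          funext y; exact hsV₂ y.1 y.2
        rw [e]
        exact s₂.continuous.comp
          ((continuous_subtype_val.comp continuous_subtype_val).subtype_mk _)
      exact this.continuousAt (hW.mem_nhds h2)
  have hfin : s ∘ p = id := by
    apply hp.eq_of_comp_eq (hcont.comp hp.continuous) continuous_id _ e0
    · show s (p e0) = e0
      rw [he0, hsV₁ _ hx0.1]; exact hs₁
    · funext e
      simp only [Function.comp_apply, id]
      exact hps (p e)
  intro a b hab
  have h1 := congrFun hfin a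
  have h2 := congrFun hfin b
  simp only [Function.comp_apply, id] at h1 h2
  rw [← h1, ← h2, hab]

variable {n : ℕ}

lemma sq_convex (p z : Cn n) {a b : ℝ} (ha : 0 ≤ a) (hb : 0 ≤ b) (hab : a + b = 1) :
    esq (a • p + b • z) ≤ a * esq p + b * esq z := by
  unfold esq
  rw [Finset.mul_sum, Finset.mul_sum, ← Finset.sum_add_distrib]
  refine Finset.sum_le_sum fun i _ => ?_
  have hb' : b = 1 - a := by linarith
  subst hb'
  simp only [Pi.add_apply, Pi.smul_apply, Complex.normSq_apply, Complex.add_re, Complex.add_im,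
    Complex.real_smul, Complex.mul_re, Complex.mul_im, Complex.ofReal_re, Complex.ofReal_im]
  nlinarith [mul_nonneg (mul_nonneg ha hb) (sq_nonneg ((p i).re - (z i).re)),
    mul_nonneg (mul_nonneg ha hb) (sq_nonneg ((p i).im - (z i).im))]

section
variable (i0 : Fin n)

/-- First unit vector. -/
noncomputable def e0 : Cn n := Pi.single i0 1

lemma sq_e0 (c : ℝ) : esq (c • e0 i0) = c ^ 2 := by
  rw [sq_rsmul]
  have : esq (e0 i0) = 1 := by
    unfold esq e0
    rw [Finset.sum_eq_single i0]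
    · simp
    · intro b _ hb; simp [Pi.single_eq_of_ne hb]
    · simp
  rw [this, mul_one]

lemma e0_apply_re (c : ℝ) : ((c • e0 i0) i0).re = c := by simp [e0]

/-- The punctured ball minus a closed ray. -/
def VV (σ : ℝ) : Set (Cn n) :=
  {z | z ∈ pball n ∧ ¬ (z = (z i0).re • e0 i0 ∧ σ * (z i0).re ≤ 0)}

lemma isOpen_VV (σ : ℝ) : IsOpen (VV i0 σ) := by
  have h1 : Continuous fun z : Cn n => (z i0).re :=
    Complex.continuous_re.comp (continuous_apply i0)
  have h2 : IsClosed {z : Cn n | z = (z i0).re • e0 i0 ∧ σ * (z i0).re ≤ 0} :=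
    (isClosed_eq continuous_id (h1.smul continuous_const)).inter
      (isClosed_le (continuous_const.mul h1) continuous_const)
  exact isOpen_pball.inter h2.isOpen_compl

lemma VV_star {σ : ℝ} (hσ : σ ^ 2 = 1) : StarConvex ℝ ((σ / 2) • e0 i0) (VV i0 σ) := by
  intro z hz a b ha hb hab
  have key : ¬ (a • (σ / 2) • e0 i0 + b • z = ((a • (σ / 2) • e0 i0 + b • z) i0).re • e0 i0 ∧
      σ * ((a • (σ / 2) • e0 i0 + b • z) i0).re ≤ 0) := by
    rintro ⟨h1, h2⟩
    have e : ((a • (σ / 2) • e0 i0 + b • z) i0).re = a * (σ / 2) + b * (z i0).re := by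
      simp [e0]
    rw [e] at h1 h2
    have h3 : b • z = (b * (z i0).re) • e0 i0 := by
      rw [smul_smul, add_smul] at h1
      exact add_left_cancel h1
    have h4 : a / 2 + b * (σ * (z i0).re) ≤ 0 := by nlinarith
    rcases hb.eq_or_lt with hb0 | hb0
    · rw [← hb0] at h4 hab; linarith
    · apply hz.2
      constructor
      · rw [mul_smul] at h3
        exact smul_right_injective _ hb0.ne' h3
      · by_contra hcon
        push Not at hcon
        nlinarith [mul_pos hb0 hcon]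
  refine ⟨⟨?_, ?_⟩, key⟩
  · rw [sq_pos]
    intro h0
    apply key
    rw [h0]; simp
  · have h1 := sq_convex ((σ / 2) • e0 i0) z ha hb hab
    have h2 : esq ((σ / 2) • e0 i0) = 1 / 4 := by
      rw [sq_e0, div_pow, hσ]; norm_num
    have h3 := hz.1.2
    rw [h2] at h1
    rcases hb.eq_or_lt with hb0 | hb0
    · rw [← hb0] at h1 hab; rw [← hb0]; linarith
    · nlinarith

lemma VV_nonempty {σ : ℝ} (hσ : σ ^ 2 = 1) : (σ / 2) • e0 i0 ∈ VV i0 σ := by
  refine ⟨⟨?_, ?_⟩, ?_⟩
  · rw [sq_e0, div_pow, hσ]; norm_num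
  · rw [sq_e0, div_pow, hσ]; norm_num
  · rintro ⟨_, h⟩
    rw [e0_apply_re] at h
    nlinarith

lemma VV_union : pball n = VV i0 1 ∪ VV i0 (-1) := by
  ext z
  constructor
  · intro hz
    by_cases h : z = (z i0).re • e0 i0 ∧ 1 * (z i0).re ≤ 0
    · right
      refine ⟨hz, ?_⟩
      rintro ⟨h1, h2⟩
      have h3 : (z i0).re = 0 := by linarith [h.2]
      rw [h3, zero_smul] at h1
      exact (sq_pos.1 hz.1) h1
    · left; exact ⟨hz, h⟩
  · rintro (h | h) <;> exact h.1

lemma VV_inter (hn : 2 ≤ n) : IsConnected (VV i0 1 ∩ VV i0 (-1)) := by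
  have hcodim : 1 < Module.rank ℝ (Cn n ⧸ Submodule.span ℝ {e0 i0}) := by
    have h1 := Submodule.finrank_quotient_add_finrank (Submodule.span ℝ {e0 i0} : Submodule ℝ (Cn n))
    have h2 : Module.finrank ℝ (Submodule.span ℝ {e0 i0} : Submodule ℝ (Cn n)) ≤ 1 := by
      have := finrank_span_le_card (R := ℝ) ({e0 i0} : Set (Cn n))
      simpa using this
    have h3 : Module.finrank ℝ (Cn n) = 2 * n := by
      rw [Module.finrank_pi_fintype]; simp [Complex.finrank_real_complex, mul_comm]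
    rw [← Module.finrank_eq_rank, ← Nat.cast_one, Nat.cast_lt]
    omega
  have h1 : IsConnected (((Submodule.span ℝ {e0 i0} : Submodule ℝ (Cn n)) : Set (Cn n))ᶜ
      ×ˢ Ioo (0 : ℝ) 1) :=
    (isConnected_compl_of_one_lt_codim hcodim).prod (isConnected_Ioo one_pos)
  have hne : ∀ z ∈ ((Submodule.span ℝ {e0 i0} : Submodule ℝ (Cn n)) : Set (Cn n))ᶜ, z ≠ 0 := by
    rintro z hz rfl; exact hz (Submodule.zero_mem _)
  have h2 := h1.image (fun p : Cn n × ℝ => Real.sqrt (p.2 / esq p.1) • p.1) (by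
    have h0 : ContinuousOn (fun p : Cn n × ℝ => Real.sqrt (p.2 / esq p.1))
        (((Submodule.span ℝ {e0 i0} : Submodule ℝ (Cn n)) : Set (Cn n))ᶜ ×ˢ Ioo (0 : ℝ) 1) := by
      apply ContinuousOn.sqrt
      apply ContinuousOn.div continuousOn_snd (continuous_sq.comp continuous_fst).continuousOn
      rintro ⟨z, c⟩ ⟨hz, _⟩
      exact (sq_pos.2 (hne z hz)).ne'
    exact h0.smul continuousOn_fst)
  convert! h2 using 1
  ext z
  simp only [mem_image, mem_prod, Prod.exists, mem_Ioo]
  constructor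
  · rintro ⟨h3, h4⟩
    have h5 : 0 < esq z := h3.1.1
    refine ⟨z, esq z, ⟨?_, h5, h3.1.2⟩, by rw [div_self h5.ne']; simp⟩
    intro hz
    obtain ⟨c, hc⟩ := Submodule.mem_span_singleton.1 hz
    have hre : (z i0).re = c := by rw [← hc]; exact e0_apply_re i0 c
    rcases le_total c 0 with h | h
    · apply h3.2
      rw [hre]; exact ⟨hc.symm, by linarith⟩
    · apply h4.2
      rw [hre]; exact ⟨hc.symm, by linarith⟩
  · rintro ⟨w, c, ⟨hw, h3, h4⟩, rfl⟩
    have h5 : 0 < esq w := sq_pos.2 (hne w hw)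
    have h6 : esq (Real.sqrt (c / esq w) • w) = c := by
      rw [sq_rsmul, Real.sq_sqrt (div_nonneg h3.le h5.le), div_mul_cancel₀ _ h5.ne']
    have h7 : Real.sqrt (c / esq w) ≠ 0 := (Real.sqrt_pos.2 (div_pos h3 h5)).ne'
    have h8 : Real.sqrt (c / esq w) • w ∈ pball n := ⟨by rw [h6]; exact h3, by rw [h6]; exact h4⟩
    have h9 : Real.sqrt (c / esq w) • w
        ≠ ((Real.sqrt (c / esq w) • w) i0).re • e0 i0 := by
      intro h
      apply hw
      have : Real.sqrt (c / esq w) • w ∈ (Submodule.span ℝ {e0 i0} : Submodule ℝ (Cn n)) := by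
        rw [h]; exact Submodule.smul_mem _ _ (Submodule.mem_span_singleton_self _)
      exact (Submodule.smul_mem_iff _ h7).1 this
    exact ⟨⟨h8, fun h => h9 h.1⟩, ⟨h8, fun h => h9 h.1⟩⟩

end

/-- Coverings of the punctured ball by connected spaces are injective. -/
lemma covering_injective (hn : 2 ≤ n) {E : Type*} [TopologicalSpace E] [PreconnectedSpace E]
    {p : E → pball n} (hp : IsCoveringMap p) (hs : Function.Surjective p) :
    Function.Injective p := by
  let i0 : Fin n := ⟨0, by omega⟩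
  have h1 : (1 : ℝ) ^ 2 = 1 := by norm_num
  have h2 : (-1 : ℝ) ^ 2 = 1 := by norm_num
  have : ContractibleSpace (VV i0 1) := (VV_star i0 h1).contractibleSpace ⟨_, VV_nonempty i0 h1⟩
  have : ContractibleSpace (VV i0 (-1)) := (VV_star i0 h2).contractibleSpace ⟨_, VV_nonempty i0 h2⟩
  have : LocallyPathConnectedSpace (VV i0 1) := (isOpen_VV i0 1).locallyPathConnectedSpace
  have : LocallyPathConnectedSpace (VV i0 (-1)) := (isOpen_VV i0 (-1)).locallyPathConnectedSpace
  exact glue (VV_union i0) (isOpen_VV i0 1) (isOpen_VV i0 (-1)) (VV_inter i0 hn) hp hs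

end Pool.Agent.Helper206.Bottom
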