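import Mathlib
import Pool.Agent.Helper206.Bottom.Ends

set_option autoImplicit false

namespace Pool.Agent.Helper206.Bottom

open Set MeasureTheory Filter Matrix
open scoped Topology ContDiff ComplexConjugate ENNReal

variable {n : ℕ}

/-- Coordinates used to compute the Gram determinant. -/
noncomputable def UU (z : Cn n) : Matrix (Fin n ⊕ Fin n) (Fin 2) ℝ :=
  Matrix.of fun i k => ![(ip (realBasis i) z).re, (ip (realBasis i) z).im] k

lemma ip_realBasis (i j : Fin n ⊕ Fin n) :
    (ip (realBasis i) (realBasis j)).re = if i = j then 1 else 0 := by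
  rcases i with a | a <;> rcases j with b | b <;>
    simp only [realBasis, Sum.elim_inl, Sum.elim_inr, ip_single_left, Sum.inl.injEq,
      Sum.inr.injEq, reduceCtorEq, if_false] <;>
    by_cases h : a = b
  all_goals first
    | subst h; simp
    | simp [Pi.single_eq_of_ne h, h]

lemma gram_eq (P Q : ℝ → ℝ) (z : Cn n) (hP : P (esq z) ≠ 0) :
    (Matrix.of fun i j : Fin n ⊕ Fin n => gmet P Q z (realBasis i) (realBasis j))
      = P (esq z) • (1 + ((Q (esq z) / P (esq z)) • UU z) * (UU z)ᵀ) := by
  ext i j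
  simp only [Matrix.of_apply, Matrix.smul_apply, Matrix.add_apply, Matrix.mul_apply,
    Fin.sum_univ_two, Matrix.transpose_apply, smul_eq_mul, Matrix.one_apply, UU,
    Matrix.cons_val_zero, Matrix.cons_val_one]
  rw [gmet, ← ip_conj (realBasis j) z]
  simp only [Complex.add_re, ip_realBasis, Complex.mul_re, Complex.mul_im, Complex.ofReal_re,
    Complex.ofReal_im, Complex.conj_re, Complex.conj_im]
  field_simp
  ring

lemma UU_mul (z : Cn n) : (UU z)ᵀ * UU z = esq z • (1 : Matrix (Fin 2) (Fin 2) ℝ) := by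
  ext k l
  simp only [Matrix.mul_apply, Matrix.transpose_apply, Matrix.smul_apply, smul_eq_mul,
    Fintype.sum_sum_type, UU, Matrix.of_apply, realBasis, Sum.elim_inl, Sum.elim_inr,
    ip_single_left, esq]
  fin_cases k <;> fin_cases l
  · simp [Complex.normSq_apply, ← Finset.sum_add_distrib]
  · simp [← Finset.sum_add_distrib, Finset.sum_neg_distrib]
    rw [neg_add_eq_zero]
    exact Finset.sum_congr rfl fun _ _ => mul_comm _ _
  · simp [← Finset.sum_add_distrib, Finset.sum_neg_distrib]
    rw [neg_add_eq_zero]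
    exact Finset.sum_congr rfl fun _ _ => mul_comm _ _
  · simp [Complex.normSq_apply, ← Finset.sum_add_distrib, add_comm]

lemma volDensity_gmet (P Q : ℝ → ℝ) (z : Cn n) (hP : 0 < P (esq z))
    (hPQ : 0 < P (esq z) + esq z * Q (esq z)) :
    volDensity (gmet P Q) z = P (esq z) ^ n * ((P (esq z) + esq z * Q (esq z)) / P (esq z)) := by
  unfold volDensity
  rw [gram_eq P Q z hP.ne', Matrix.det_smul, Matrix.det_one_add_mul_comm, Matrix.mul_smul, UU_mul]
  have e : (1 : Matrix (Fin 2) (Fin 2) ℝ) + (Q (esq z) / P (esq z)) • esq z • (1 : Matrix (Fin 2) (Fin 2) ℝ)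
      = ((P (esq z) + esq z * Q (esq z)) / P (esq z)) • (1 : Matrix (Fin 2) (Fin 2) ℝ) := by
    rw [smul_smul]
    nth_rewrite 1 [← one_smul ℝ (1 : Matrix (Fin 2) (Fin 2) ℝ)]
    rw [← add_smul]
    congr 1
    field_simp
  rw [e, Matrix.det_smul]
  simp only [Fintype.card_sum, Fintype.card_fin, Matrix.det_one, mul_one]
  have h : P (esq z) ^ (n + n) * ((P (esq z) + esq z * Q (esq z)) / P (esq z)) ^ 2
      = (P (esq z) ^ n * ((P (esq z) + esq z * Q (esq z)) / P (esq z))) ^ 2 := by ring
  rw [h, Real.sqrt_sq (by positivity)]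

/-- Density of the metric on the punctured ball. -/
noncomputable def dens (n : ℕ) (s : ℝ) : ℝ := (1 / (s * (-Real.log s))) ^ n * (1 / (-Real.log s))

lemma volDensity_g0 {z : Cn n} (hz : z ∈ pball n) : volDensity g0 z = dens n (esq z) := by
  have h := volDensity_gmet P0 Q0 z (P0_pos hz) (PQ0_pos hz)
  have e : volDensity (g0 (n := n)) z = volDensity (gmet P0 Q0) z := rfl
  rw [e, h, PQ0 hz]
  have h1 := hz.1
  have h2 := log_neg' hz
  have h4 : Real.log (esq z) ≠ 0 := by intro h; rw [h] at h2; simp at h2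
  unfold P0 dens
  congr 1
  field_simp

lemma dens_pos {s : ℝ} (h : 0 < s ∧ s < 1) : 0 < dens n s := by
  have := h.1
  have := log_neg' h
  unfold dens; positivity

end Pool.Agent.Helper206.Bottom
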