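import Mathlib
import Pool.Agent.Helper206.Bottom.Vol

set_option autoImplicit false

namespace Pool.Agent.Helper206.Bottom

open Set MeasureTheory Filter
open scoped Topology ContDiff ComplexConjugate ENNReal

variable {n : ℕ}

lemma gmet_sub_smul (P Q : ℝ → ℝ) (z v w : Cn n) (t : ℝ) :
    gmet P Q z (w + t • v) (w + t • v)
      = gmet P Q z w w + 2 * t * gmet P Q z w v + t ^ 2 * gmet P Q z v v := by
  rw [gmet_add_left, gmet_smul_left, gmet_symm z w (w + t • v), gmet_symm z v (w + t • v),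
    gmet_add_left, gmet_smul_left, gmet_add_left, gmet_smul_left, gmet_symm z v w]
  ring

/-- Cauchy-Schwarz for the metric. -/
lemma g0_cs {z : Cn n} (hz : z ∈ pball n) (v w : Cn n) (hv : v ≠ 0) :
    (g0 z w v) ^ 2 / g0 z v v ≤ g0 z w w := by
  have hpos : 0 < g0 z v v := g0_isKahler.pos z hz v hv
  rw [div_le_iff₀ hpos]
  have h := g0_nonneg hz (w + (-(g0 z w v / g0 z v v)) • v)
  unfold g0 at h hpos ⊢
  rw [gmet_sub_smul] at h
  have e : gmet P0 Q0 z w w + 2 * -(gmet P0 Q0 z w v / gmet P0 Q0 z v v) * gmet P0 Q0 z w v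
      + (-(gmet P0 Q0 z w v / gmet P0 Q0 z v v)) ^ 2 * gmet P0 Q0 z v v
      = (gmet P0 Q0 z w w * gmet P0 Q0 z v v - gmet P0 Q0 z w v ^ 2) / gmet P0 Q0 z v v := by
    field_simp; ring
  rw [e] at h
  have := (div_nonneg_iff.1 h)
  rcases this with h | h
  · linarith [h.1]
  · linarith [h.2]

lemma gradSq_le {z : Cn n} (hz : z ∈ pball n) {φ : Cn n → ℝ} {w : Cn n}
    (hw : ∀ v, g0 z w v = fderiv ℝ φ z v) (v : Cn n) :
    (fderiv ℝ φ z v) ^ 2 / g0 z v v ≤ g0 z w w := by
  by_cases hv : v = 0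
  · subst hv
    simp only [map_zero]
    simpa using g0_nonneg hz w
  · rw [← hw]; exact g0_cs hz v w hv

lemma gradSq_eq {z : Cn n} (hz : z ∈ pball n) {φ : Cn n → ℝ} {w : Cn n}
    (hw : ∀ v, g0 z w v = fderiv ℝ φ z v) : gradSq g0 φ z = g0 z w w := by
  unfold gradSq
  apply le_antisymm
  · exact ciSup_le fun v => gradSq_le hz hw v
  · refine le_ciSup_of_le ⟨g0 z w w, ?_⟩ w ?_
    · rintro _ ⟨v, rfl⟩; exact gradSq_le hz hw v
    · rw [← hw]
      by_cases h : g0 z w w = 0
      · rw [h]; simp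
      · rw [pow_two, mul_div_assoc, div_self h, mul_one]

/-- Euclidean gradient. -/
noncomputable def gr (φ : Cn n → ℝ) (z : Cn n) : Cn n := fun b =>
  (fderiv ℝ φ z (Pi.single b 1) : ℂ) + Complex.I * (fderiv ℝ φ z (Pi.single b Complex.I) : ℂ)

lemma decomp (v : Cn n) : v = ∑ b, ((v b).re • (Pi.single b 1 : Cn n)
    + (v b).im • (Pi.single b Complex.I : Cn n)) := by
  funext a
  rw [Finset.sum_apply, Finset.sum_eq_single a]
  · simp [Complex.re_add_im]
  · intro b _ hb
    simp [Pi.single_eq_of_ne (Ne.symm hb)]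
  · simp

lemma fderiv_eq_gr (φ : Cn n → ℝ) (z v : Cn n) : fderiv ℝ φ z v = (ip (gr φ z) v).re := by
  conv_lhs => rw [decomp v]
  rw [map_sum, ip, Complex.re_sum]
  refine Finset.sum_congr rfl fun b _ => ?_
  simp only [map_add, map_smul, smul_eq_mul, gr, Complex.mul_re, Complex.add_re, Complex.add_im,
    Complex.mul_im, Complex.ofReal_re, Complex.ofReal_im, Complex.I_re, Complex.I_im,
    Complex.conj_re, Complex.conj_im]
  ring

/-- Riemannian gradient for the metric with coefficients `P`, `Q`. -/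
noncomputable def rg (φ : Cn n → ℝ) (z : Cn n) : Cn n :=
  ((1 / P0 (esq z) : ℝ) : ℂ) • (gr φ z
    - (((Q0 (esq z) / (P0 (esq z) + esq z * Q0 (esq z)) : ℝ) : ℂ) * ip (gr φ z) z) • z)

lemma alg_aux (p q s d α β γ : ℂ) (hp : p ≠ 0) (hd : d ≠ 0) (h : d = p + s * q) :
    p * (1 / p * (α - q / d * β * γ)) + q * (1 / p * (β - q / d * β * s) * γ) = α := by
  field_simp
  subst h
  ring

lemma rg_spec {z : Cn n} (hz : z ∈ pball n) (φ : Cn n → ℝ) (v : Cn n) :
    g0 z (rg φ z) v = fderiv ℝ φ z v := by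
  rw [fderiv_eq_gr]
  unfold g0 gmet rg
  have h1 : (P0 (esq z) : ℂ) ≠ 0 := by exact_mod_cast (P0_pos hz).ne'
  have h2 : ((P0 (esq z) : ℂ) + esq z * Q0 (esq z)) ≠ 0 := by exact_mod_cast (PQ0_pos hz).ne'
  congr 1
  simp only [ip_smul_left, ip_sub_left, ip_self]
  push_cast
  exact alg_aux _ _ _ _ _ _ _ h1 h2 rfl

lemma gradSq_formula {z : Cn n} (hz : z ∈ pball n) (φ : Cn n → ℝ) :
    gradSq g0 φ z = (1 / P0 (esq z)) * (esq (gr φ z)
      - Q0 (esq z) / (P0 (esq z) + esq z * Q0 (esq z)) * Complex.normSq (ip (gr φ z) z)) := by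
  rw [gradSq_eq hz (rg_spec hz φ), rg_spec hz φ, fderiv_eq_gr]
  unfold rg
  rw [← ip_conj, Complex.conj_re, ip_smul_left, ip_sub_left, ip_smul_left, Complex.re_ofReal_mul,
    ip_self, Complex.sub_re, Complex.ofReal_re, mul_assoc, Complex.re_ofReal_mul,
    ← ip_conj (gr φ z) z, Complex.mul_conj, Complex.ofReal_re]

lemma continuous_gr {φ : Cn n → ℝ} (hφ : ContDiff ℝ ∞ φ) : Continuous (gr φ) := by
  have h : Continuous (fderiv ℝ φ) := hφ.continuous_fderiv (by simp)
  unfold gr
  refine continuous_pi fun b => ?_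
  exact (Complex.continuous_ofReal.comp (h.clm_apply continuous_const)).add
    (continuous_const.mul (Complex.continuous_ofReal.comp (h.clm_apply continuous_const)))

lemma continuous_ip {f g : Cn n → Cn n} (hf : Continuous f) (hg : Continuous g) :
    Continuous fun z => ip (f z) (g z) := by
  unfold ip
  exact continuous_finsetSum _ fun a _ => ((continuous_apply a).comp hf).mul
      (Complex.continuous_conj.comp ((continuous_apply a).comp hg))

lemma continuousOn_gradSq {φ : Cn n → ℝ} (hφ : ContDiff ℝ ∞ φ) :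
    ContinuousOn (gradSq g0 φ) (pball n) := by
  have h1 : ContinuousOn (fun z => (1 / P0 (esq z)) * (esq (gr φ z)
      - Q0 (esq z) / (P0 (esq z) + esq z * Q0 (esq z)) * Complex.normSq (ip (gr φ z) z))) (pball n) := by
    have hP : ContinuousOn (fun z : Cn n => P0 (esq z)) (pball n) :=
      (contDiffOn_comp_sq contDiffOn_P0).continuousOn
    have hQ : ContinuousOn (fun z : Cn n => Q0 (esq z)) (pball n) :=
      (contDiffOn_comp_sq contDiffOn_Q0).continuousOn
    have hs : ContinuousOn (esq : Cn n → ℝ) (pball n) := continuous_sq.continuousOn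
    apply ContinuousOn.mul
    · exact continuousOn_const.div hP fun z hz => (P0_pos hz).ne'
    · apply ContinuousOn.sub
      · exact (continuous_sq.comp (continuous_gr hφ)).continuousOn
      · apply ContinuousOn.mul
        · exact hQ.div (hP.add (hs.mul hQ)) fun z hz => (PQ0_pos hz).ne'
        · exact (Complex.continuous_normSq.comp
            (continuous_ip (continuous_gr hφ) continuous_id)).continuousOn
  exact h1.congr fun z hz => gradSq_formula hz φ

lemma g0_self_z {z : Cn n} (hz : z ∈ pball n) : g0 z z z = 1 / (-Real.log (esq z)) ^ 2 := by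
  rw [g0_self hz]
  have h1 := hz.1
  have h2 := log_neg' hz
  have h4 : Real.log (esq z) ≠ 0 := by intro h; rw [h] at h2; simp at h2
  rw [ip_self, Complex.normSq_ofReal]
  field_simp
  ring

/-- The gradient dominates the radial derivative. -/
lemma radial_le_gradSq {z : Cn n} (hz : z ∈ pball n) (φ : Cn n → ℝ) :
    (-Real.log (esq z)) ^ 2 * (fderiv ℝ φ z z) ^ 2 ≤ gradSq g0 φ z := by
  have h := gradSq_le hz (rg_spec hz φ) z
  rw [← gradSq_eq hz (rg_spec hz φ), g0_self_z hz, div_div_eq_mul_div, div_one, mul_comm] at h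
  exact h

/-- A radial function of unit speed. -/
lemma gradSq_TT {z : Cn n} (hz : z ∈ pball n) {φ : Cn n → ℝ} {c : ℝ}
    (h : ∀ v, fderiv ℝ φ z v = c * (-(ip v z).re / (esq z * (-Real.log (esq z))))) :
    gradSq g0 φ z = c ^ 2 := by
  have h1 := hz.1
  have h2 := log_neg' hz
  have h4 : Real.log (esq z) ≠ 0 := by intro h; rw [h] at h2; simp at h2
  have key : ∀ v, g0 z ((c * Real.log (esq z)) • z) v = fderiv ℝ φ z v := by
    intro v
    rw [h]
    unfold g0
    rw [gmet_smul_left]
    have e : gmet P0 Q0 z z v = (P0 (esq z) + esq z * Q0 (esq z)) * (ip v z).re := by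
      unfold gmet
      rw [ip_self, ip_symm_re v z |>.symm, ← Complex.re_ofReal_mul]
      congr 1
      push_cast
      ring
    rw [e, PQ0 hz]
    field_simp
  rw [gradSq_eq hz key, key, h, ip_rsmul_left, ip_self]
  simp only [Complex.mul_re, Complex.ofReal_re, Complex.ofReal_im]
  field_simp
  ring

end Pool.Agent.Helper206.Bottom
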