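import Mathlib
import Pool.Agent.Helper206.Bottom.Grad

set_option autoImplicit false

namespace Pool.Agent.Helper206.Bottom

open Set MeasureTheory Filter
open scoped Topology ContDiff ComplexConjugate ENNReal

variable {n : ℕ}

lemma fderiv_hcs {Φ : Cn n → ℝ} (hc : HasCompactSupport Φ) (v : Cn n) :
    HasCompactSupport fun z => fderiv ℝ Φ z v :=
  (hc.fderiv (𝕜 := ℝ)).comp_left (g := fun L : Cn n →L[ℝ] ℝ => L v) (by simp)

lemma integral_ibp {Φ : Cn n → ℝ} (h1 : ContDiff ℝ 1 Φ) (hc : HasCompactSupport Φ)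
    (L : Cn n →L[ℝ] ℝ) (v : Cn n) :
    ∫ z, fderiv ℝ Φ z v * L z = - (L v) * ∫ z, Φ z := by
  have hcont : Continuous fun z => fderiv ℝ Φ z v :=
    (h1.continuous_fderiv one_ne_zero).clm_apply continuous_const
  have hL : ∀ z, fderiv ℝ (fun z => L z) z v = L v := fun z => by rw [L.fderiv]
  have h := integral_mul_fderiv_eq_neg_fderiv_mul_of_integrable (μ := (volume : Measure (Cn n)))
    (f := Φ) (g := fun z => L z) (v := v)
    ((hcont.mul L.continuous).integrable_of_hasCompactSupport ((fderiv_hcs hc v).mul_right))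
    (by
      simp only [hL]
      exact (h1.continuous.mul continuous_const).integrable_of_hasCompactSupport hc.mul_right)
    ((h1.continuous.mul L.continuous).integrable_of_hasCompactSupport hc.mul_right)
    (fun z _ => h1.differentiable (by norm_num) z) (fun z _ => L.differentiableAt)
  simp only [hL] at h
  rw [integral_mul_const] at h
  linarith

/-- Euler identity. -/
lemma integral_euler {Φ : Cn n → ℝ} (h1 : ContDiff ℝ 1 Φ) (hc : HasCompactSupport Φ) :
    ∫ z, fderiv ℝ Φ z z = - (2 * n) * ∫ z, Φ z := by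
  let R : Fin n → Cn n →L[ℝ] ℝ := fun a =>
    Complex.reCLM.comp (ContinuousLinearMap.proj (R := ℝ) a)
  let J : Fin n → Cn n →L[ℝ] ℝ := fun a =>
    Complex.imCLM.comp (ContinuousLinearMap.proj (R := ℝ) a)
  have hR : ∀ a z, R a z = (z a).re := fun a z => rfl
  have hJ : ∀ a z, J a z = (z a).im := fun a z => rfl
  have e : (fun z => fderiv ℝ Φ z z) = fun z => ∑ a, (fderiv ℝ Φ z (Pi.single a 1) * R a z
      + fderiv ℝ Φ z (Pi.single a Complex.I) * J a z) := by
    funext z
    conv_lhs => arg 2; rw [decomp z]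
    rw [map_sum]
    refine Finset.sum_congr rfl fun a _ => ?_
    rw [map_add, map_smul, map_smul, smul_eq_mul, smul_eq_mul, hR, hJ]; ring
  have hint : ∀ (L : Cn n →L[ℝ] ℝ) (v : Cn n), Integrable fun z => fderiv ℝ Φ z v * L z := by
    intro L v
    have hcont : Continuous fun z => fderiv ℝ Φ z v :=
      (h1.continuous_fderiv one_ne_zero).clm_apply continuous_const
    exact (hcont.mul L.continuous).integrable_of_hasCompactSupport ((fderiv_hcs hc v).mul_right)
  have hadd : ∀ a ∈ Finset.univ, Integrable fun z => (fderiv ℝ Φ z (Pi.single a 1) * R a z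
      + fderiv ℝ Φ z (Pi.single a Complex.I) * J a z) := fun a _ => (hint _ _).add (hint _ _)
  rw [e, integral_finset_sum _ hadd]
  have : ∀ a : Fin n, ∫ z, (fderiv ℝ Φ z (Pi.single a 1) * R a z
      + fderiv ℝ Φ z (Pi.single a Complex.I) * J a z) = -2 * ∫ z, Φ z := by
    intro a
    rw [integral_add (hint _ _) (hint _ _), integral_ibp h1 hc, integral_ibp h1 hc, hR, hJ]
    simp; ring
  rw [Finset.sum_congr rfl fun a _ => this a]
  simp; ring

/-- The weight. -/
noncomputable def WW (n : ℕ) (s : ℝ) : ℝ := P0 s ^ n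

lemma hasDerivAt_WW {s : ℝ} (h : 0 < s ∧ s < 1) :
    HasDerivAt (WW n) (n * P0 s ^ (n - 1) * Q0 s) s := by
  have := (hasDerivAt_P0 h).pow n
  exact this

lemma WW_deriv {s : ℝ} (h : 0 < s ∧ s < 1) :
    s * (n * P0 s ^ (n - 1) * Q0 s) = n * dens n s - n * WW n s := by
  rcases Nat.eq_zero_or_pos n with hn | hn
  · subst hn; simp
  · obtain ⟨m, rfl⟩ : ∃ m, n = m + 1 := ⟨n - 1, by omega⟩
    have h1 := PQ0 h
    have h2 : s * Q0 s = 1 / (s * (-Real.log s) ^ 2) - P0 s := by linarith
    have h3 := h.1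
    have h4 := log_neg' h
    have h5 : Real.log s ≠ 0 := by intro h; rw [h] at h4; simp at h4
    have e : s * ((m + 1 : ℕ) * P0 s ^ (m + 1 - 1) * Q0 s)
        = (m + 1 : ℕ) * P0 s ^ m * (s * Q0 s) := by simp; ring
    have h6 : 1 / (s * (-Real.log s) ^ 2) = P0 s * (1 / (-Real.log s)) := by
      unfold P0; field_simp
    have h7 : dens (m + 1) s = P0 s ^ (m + 1) * (1 / (-Real.log s)) := rfl
    rw [e, h2, h6, h7]
    unfold WW
    ring

lemma WW_eq {s : ℝ} (h : 0 < s ∧ s < 1) : WW n s = (-Real.log s) * dens n s := by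
  have h4 := log_neg' h
  have h7 : dens n s = P0 s ^ n * (1 / (-Real.log s)) := rfl
  rw [h7, mul_comm, mul_assoc, one_div_mul_cancel h4.ne', mul_one]
  rfl

variable {φ : Cn n → ℝ}

lemma eventually_zero {z : Cn n} (hz : z ∉ tsupport φ) : φ =ᶠ[𝓝 z] 0 :=
  notMem_tsupport_iff_eventuallyEq.1 hz

lemma contDiff_Phi (h1 : ContDiff ℝ ∞ φ) (hX : tsupport φ ⊆ pball n) :
    ContDiff ℝ 1 (fun z => φ z ^ 2 * WW n (esq z)) := by
  rw [contDiff_iff_contDiffAt]
  intro z
  by_cases hz : z ∈ tsupport φ
  · have hP : ContDiffOn ℝ ∞ (fun z : Cn n => WW n (esq z)) (pball n) :=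
      (contDiffOn_comp_sq contDiffOn_P0).pow n
    have := (h1.contDiffOn (s := pball n)).pow 2 |>.mul hP
    exact (this.contDiffAt (isOpen_pball.mem_nhds (hX hz))).of_le (by norm_cast)
  · have := eventually_zero hz
    have e : (fun z => φ z ^ 2 * WW n (esq z)) =ᶠ[𝓝 z] fun _ => 0 := by
      filter_upwards [this] with y hy
      rw [hy]; simp
    exact (contDiffAt_const (c := (0:ℝ))).congr_of_eventuallyEq e

lemma hcs_Phi (h2 : HasCompactSupport φ) :
    HasCompactSupport (fun z => φ z ^ 2 * WW n (esq z)) := by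
  apply HasCompactSupport.mul_right
  have := h2.comp_left (g := fun x : ℝ => x ^ 2) (by simp)
  exact this

lemma fderiv_zero_of {z : Cn n} (hz : z ∉ tsupport φ) : fderiv ℝ φ z = 0 := by
  have := (eventually_zero hz).fderiv_eq (𝕜 := ℝ)
  rw [this]
  exact fderiv_const_apply (0 : ℝ)

lemma integrand_eq (h1 : ContDiff ℝ ∞ φ) (hX : tsupport φ ⊆ pball n) (z : Cn n) :
    fderiv ℝ (fun z => φ z ^ 2 * WW n (esq z)) z z + 2 * n * (φ z ^ 2 * WW n (esq z))
      = 2 * (φ z * fderiv ℝ φ z z * (-Real.log (esq z)) * dens n (esq z)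
        + n * (φ z ^ 2 * dens n (esq z))) := by
  by_cases hz : z ∈ tsupport φ
  · have hzX := hX hz
    have hφ : HD φ (fun x => fderiv ℝ φ z x) z :=
      HD.of_differentiableAt (h1.differentiable (by simp) z)
    have hW := (HD_sq z).comp (hasDerivAt_WW (n := n) hzX)
    have h := (hφ.mulR hφ).mulR hW
    have e : (fun z => φ z ^ 2 * WW n (esq z)) = fun z => φ z * φ z * WW n (esq z) := by
      funext z; ring
    rw [e, h.fderiv z, ip_self, Complex.ofReal_re]
    have h3 := WW_deriv (n := n) hzX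
    have h4 := WW_eq (n := n) hzX
    have e2 : φ z * φ z * (n * P0 (esq z) ^ (n - 1) * Q0 (esq z) * (2 * esq z))
        = 2 * (φ z * φ z) * (esq z * (n * P0 (esq z) ^ (n - 1) * Q0 (esq z))) := by ring
    rw [e2, h3, h4]
    ring
  · have h0 := eventually_zero hz
    have hz0 : φ z = 0 := h0.self_of_nhds
    have e : (fun z => φ z ^ 2 * WW n (esq z)) =ᶠ[𝓝 z] fun _ => 0 := by
      filter_upwards [h0] with y hy
      rw [hy]; simp
    rw [e.fderiv_eq, hz0]
    simp

lemma continuousOn_dens : ContinuousOn (fun z : Cn n => dens n (esq z)) (pball n) := by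
  have h : ContinuousOn (dens n) (Ioo 0 1) := by
    unfold dens
    have h1 : ContinuousOn Real.log (Ioo 0 1) :=
      Real.continuousOn_log.mono (by intro s hs; exact (ne_of_gt hs.1 : s ≠ 0))
    apply ContinuousOn.mul
    · exact (continuousOn_const.div (continuousOn_id.mul h1.neg) fun s hs => den_ne hs).pow n
    · exact continuousOn_const.div h1.neg fun s hs => (log_neg' hs).ne'
  exact h.comp continuous_sq.continuousOn fun z hz => hz

lemma continuousOn_log_sq : ContinuousOn (fun z : Cn n => -Real.log (esq z)) (pball n) :=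
  (Real.continuousOn_log.comp continuous_sq.continuousOn fun z hz => (ne_of_gt hz.1)).neg

/-- Integrability of functions continuous in the punctured ball and vanishing off a compact. -/
lemma integrableOn_of {F : Cn n → ℝ} {K : Set (Cn n)} (hK : IsCompact K) (hKX : K ⊆ pball n)
    (hF : ContinuousOn F (pball n)) (h0 : ∀ z ∈ pball n, z ∉ K → F z = 0) :
    IntegrableOn F (pball n) := by
  have h1 : IntegrableOn F K := (hF.mono hKX).integrableOn_compact hK
  have h2 : IntegrableOn F (pball n \ K) :=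
    integrableOn_zero.congr_fun
      (fun z hz => (h0 z hz.1 hz.2).symm) (isOpen_pball.measurableSet.diff hK.measurableSet)
  have h3 := h1.union h2
  rwa [union_diff_cancel hKX] at h3

lemma phi_zero {z : Cn n} (hz : z ∉ tsupport φ) : φ z = 0 := image_eq_zero_of_notMem_tsupport hz

section
variable (h1 : ContDiff ℝ ∞ φ) (h2 : HasCompactSupport φ) (hX : tsupport φ ⊆ pball n)
include h1 h2 hX

lemma int_phi2 : IntegrableOn (fun z => φ z ^ 2 * dens n (esq z)) (pball n) := by
  refine integrableOn_of h2 hX ((h1.continuous.pow 2).continuousOn.mul continuousOn_dens) ?_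
  intro z _ hz; rw [phi_zero hz]; simp

lemma int_cross : IntegrableOn (fun z => φ z * fderiv ℝ φ z z * (-Real.log (esq z))
    * dens n (esq z)) (pball n) := by
  have hD : Continuous fun z => fderiv ℝ φ z z :=
    (h1.continuous_fderiv (by simp)).clm_apply continuous_id
  refine integrableOn_of h2 hX (((h1.continuous.mul hD).continuousOn.mul
    continuousOn_log_sq).mul continuousOn_dens) ?_
  intro z _ hz; rw [phi_zero hz]; simp

lemma int_rad : IntegrableOn (fun z => (-Real.log (esq z)) ^ 2 * (fderiv ℝ φ z z) ^ 2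
    * dens n (esq z)) (pball n) := by
  have hD : Continuous fun z => fderiv ℝ φ z z :=
    (h1.continuous_fderiv (by simp)).clm_apply continuous_id
  refine integrableOn_of h2 hX (((continuousOn_log_sq.pow 2).mul (hD.pow 2).continuousOn).mul
    continuousOn_dens) ?_
  intro z _ hz; rw [fderiv_zero_of hz]; simp

lemma int_grad : IntegrableOn (fun z => gradSq g0 φ z * dens n (esq z)) (pball n) := by
  refine integrableOn_of h2 hX ((continuousOn_gradSq h1).mul continuousOn_dens) ?_
  intro z hz hz'
  rw [gradSq_formula hz]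
  have : gr φ z = 0 := by
    funext b; simp [gr, fderiv_zero_of hz']
  rw [this]; simp

lemma cross_identity :
    ∫ z in pball n, (φ z * fderiv ℝ φ z z * (-Real.log (esq z)) * dens n (esq z)
        + n * (φ z ^ 2 * dens n (esq z))) = 0 := by
  have hΦ := contDiff_Phi h1 hX
  have hc := hcs_Phi (n := n) h2
  have he := integral_euler hΦ hc
  have hD : Continuous fun z => fderiv ℝ (fun z => φ z ^ 2 * WW n (esq z)) z z :=
    (hΦ.continuous_fderiv one_ne_zero).clm_apply continuous_id
  have hDc : HasCompactSupport fun z => fderiv ℝ (fun z => φ z ^ 2 * WW n (esq z)) z z := by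
    apply HasCompactSupport.intro' hc (isClosed_tsupport _)
    intro z hz
    have := (notMem_tsupport_iff_eventuallyEq.1 hz).fderiv_eq (𝕜 := ℝ)
    rw [this]
    simp
  have hi : ∫ z, (fderiv ℝ (fun z => φ z ^ 2 * WW n (esq z)) z z
      + 2 * n * (φ z ^ 2 * WW n (esq z))) = 0 := by
    rw [integral_add (hD.integrable_of_hasCompactSupport hDc)
      ((hΦ.continuous.integrable_of_hasCompactSupport hc).const_mul _), integral_const_mul, he]
    ring
  simp only [integrand_eq h1 hX] at hi
  rw [integral_const_mul] at hi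
  have hi2 := (mul_eq_zero.1 hi).resolve_left two_ne_zero
  rw [← hi2]
  apply setIntegral_eq_integral_of_forall_compl_eq_zero
  intro z hz
  have : z ∉ tsupport φ := fun h => hz (hX h)
  rw [phi_zero this]; simp

/-- Lower bound for the Rayleigh quotient. -/
lemma lower_bound : (n : ℝ) ^ 2 * ∫ z in pball n, φ z ^ 2 * volDensity g0 z
    ≤ ∫ z in pball n, gradSq g0 φ z * volDensity g0 z := by
  have hm := isOpen_pball (n := n).measurableSet
  have e1 : ∫ z in pball n, φ z ^ 2 * volDensity g0 z = ∫ z in pball n, φ z ^ 2 * dens n (esq z) :=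
    setIntegral_congr_fun hm fun z hz => by simp only [volDensity_g0 hz]
  have e2 : ∫ z in pball n, gradSq g0 φ z * volDensity g0 z
      = ∫ z in pball n, gradSq g0 φ z * dens n (esq z) :=
    setIntegral_congr_fun hm fun z hz => by simp only [volDensity_g0 hz]
  rw [e1, e2]
  have hc := cross_identity h1 h2 hX
  have i1 := int_phi2 h1 h2 hX
  have i2 := int_cross h1 h2 hX
  have i3 := int_rad h1 h2 hX
  have i4 := int_grad h1 h2 hX
  have k1 : ∫ z in pball n, (-Real.log (esq z)) ^ 2 * (fderiv ℝ φ z z) ^ 2 * dens n (esq z)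
      ≤ ∫ z in pball n, gradSq g0 φ z * dens n (esq z) :=
    setIntegral_mono_on i3 i4 hm fun z hz =>
      mul_le_mul_of_nonneg_right (radial_le_gradSq hz φ) (dens_pos hz).le
  have i5 : IntegrableOn (fun z => (n : ℝ) ^ 2 * (φ z ^ 2 * dens n (esq z))) (pball n) :=
    i1.const_mul _
  have i6 : IntegrableOn (fun z => 2 * (n : ℝ) * (φ z * fderiv ℝ φ z z * (-Real.log (esq z))
      * dens n (esq z) + n * (φ z ^ 2 * dens n (esq z)))) (pball n) :=
    (i2.add (i1.const_mul _)).const_mul _
  have k2 : ∫ z in pball n, ((n : ℝ) ^ 2 * (φ z ^ 2 * dens n (esq z))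
        - 2 * n * (φ z * fderiv ℝ φ z z * (-Real.log (esq z)) * dens n (esq z)
        + n * (φ z ^ 2 * dens n (esq z))))
      ≤ ∫ z in pball n, (-Real.log (esq z)) ^ 2 * (fderiv ℝ φ z z) ^ 2 * dens n (esq z) := by
    refine setIntegral_mono_on (i5.sub i6) i3 hm
      fun z hz => ?_
    have h3 := (dens_pos (n := n) hz).le
    nlinarith [mul_nonneg (sq_nonneg ((-Real.log (esq z)) * fderiv ℝ φ z z + n * φ z)) h3]
  rw [integral_sub i5 i6, integral_const_mul,
    integral_const_mul, hc, mul_zero, sub_zero] at k2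
  exact k2.trans k1

end

lemma phi2_pos (h1 : ContDiff ℝ ∞ φ) (h2 : HasCompactSupport φ) (hX : tsupport φ ⊆ pball n)
    (h0 : φ ≠ 0) : 0 < ∫ z in pball n, φ z ^ 2 * volDensity g0 z := by
  have hm := isOpen_pball (n := n).measurableSet
  have e1 : ∫ z in pball n, φ z ^ 2 * volDensity g0 z = ∫ z in pball n, φ z ^ 2 * dens n (esq z) :=
    setIntegral_congr_fun hm fun z hz => by simp only [volDensity_g0 hz]
  rw [e1, setIntegral_pos_iff_support_of_nonneg_ae _ (int_phi2 h1 h2 hX)]
  · have hsub : Function.support φ ⊆ Function.support (fun z => φ z ^ 2 * dens n (esq z)) ∩ pball n := by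
      intro z hz
      have hzX := hX (subset_tsupport φ hz)
      exact ⟨mul_ne_zero (pow_ne_zero 2 hz) (dens_pos hzX).ne', hzX⟩
    refine lt_of_lt_of_le ?_ (measure_mono hsub)
    exact IsOpen.measure_pos volume (h1.continuous.isOpen_support)
      (Function.support_nonempty_iff.2 h0)
  · filter_upwards [ae_restrict_mem hm] with z hz
    exact mul_nonneg (sq_nonneg _) (dens_pos hz).le

end Pool.Agent.Helper206.Bottom
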