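import Mathlib
import Pool.Agent.Helper206.Bottom.Glue

set_option autoImplicit false

namespace Pool.Agent.Helper206.Bottom

open Set Filter
open scoped Topology ContDiff ComplexConjugate

variable {n : ℕ}

lemma isOpen_unitBall : IsOpen (unitBall n) := isOpen_lt continuous_sq continuous_const

lemma unitBall_preconnected : IsPreconnected (unitBall n) := by
  have h : StarConvex ℝ (0 : Cn n) (unitBall n) := by
    intro z hz a b ha hb hab
    have h1 := sq_convex 0 z ha hb hab
    have h2 : esq z < 1 := hz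
    show esq (a • (0 : Cn n) + b • z) < 1
    rw [sq_zero', mul_zero, zero_add] at h1
    have : esq (a • (0 : Cn n) + b • z) ≤ b * esq z := h1
    have h3 := sq_nonneg' z
    nlinarith
  have h0 : (0 : Cn n) ∈ unitBall n := by show esq 0 < 1; simp
  exact (h.isPathConnected h0).isConnected.isPreconnected

lemma hypSq_pos {z v : Cn n} (hz : z ∈ unitBall n) (hv : v ≠ 0) : 0 < hypSq z v := by
  have h1 : 0 < 1 - esq z := by have : esq z < 1 := hz; linarith
  have h2 : 0 < esq v := sq_pos.2 hv
  have h3 := Complex.normSq_nonneg (ip v z)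
  unfold hypSq
  positivity

lemma g0_zero_left (z v : Cn n) : g0 z 0 v = 0 := by
  unfold g0 gmet; simp

/-- The punctured ball is not homeomorphic to the ball. -/
lemma no_homeo (hn : 2 ≤ n) (Φ : unitBall n ≃ₜ pball n) : False := by
  have he : Real.exp (-1) < 1 := by rw [Real.exp_lt_one_iff]; norm_num
  have he0 : 0 < Real.exp (-1) := Real.exp_pos _
  -- the compact sphere and its preimage
  let K : Set (pball n) := {z | esq (z : Cn n) = Real.exp (-1)}
  have hK : IsCompact K := by
    rw [Subtype.isCompact_iff]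
    have : Subtype.val '' K = {z : Cn n | esq z ∈ ({Real.exp (-1)} : Set ℝ)} := by
      ext z
      constructor
      · rintro ⟨w, hw, rfl⟩; exact hw
      · intro hz
        have hz' : esq z = Real.exp (-1) := hz
        exact ⟨⟨z, by rw [hz']; exact he0, by rw [hz']; exact he⟩, hz', rfl⟩
    rw [this]
    exact isCompact_preimage_sq isCompact_singleton
  have hK' : IsCompact (Φ ⁻¹' K) := Φ.isCompact_preimage.2 hK
  have hcs : Continuous fun z : unitBall n => esq (z : Cn n) :=
    continuous_sq.comp continuous_subtype_val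
  have hcs' : Continuous fun z : pball n => esq (z : Cn n) :=
    continuous_sq.comp continuous_subtype_val
  obtain ⟨r, hr1, hr⟩ : ∃ r < 1, ∀ z ∈ Φ ⁻¹' K, esq (z : Cn n) ≤ r := by
    rcases (Φ ⁻¹' K).eq_empty_or_nonempty with h | h
    · exact ⟨0, one_pos, fun z hz => by rw [h] at hz; exact hz.elim⟩
    · obtain ⟨z0, _, hz0'⟩ := hK'.exists_isMaxOn h hcs.continuousOn
      exact ⟨esq (z0 : Cn n), z0.2, fun z hz => hz0' hz⟩
  set r' := max r 0 with hr'
  have hr'1 : r' < 1 := max_lt hr1 one_pos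
  have hr'0 : 0 ≤ r' := le_max_right _ _
  -- the closed ball of radius r'
  let D : Set (unitBall n) := {z | esq (z : Cn n) ≤ r'}
  have hD : IsCompact D := by
    rw [Subtype.isCompact_iff]
    have : Subtype.val '' D = {z : Cn n | esq z ∈ Icc 0 r'} := by
      ext z
      constructor
      · rintro ⟨w, hw, rfl⟩; exact ⟨sq_nonneg' _, hw⟩
      · rintro ⟨_, hz⟩
        exact ⟨⟨z, lt_of_le_of_lt hz hr'1⟩, hz, rfl⟩
    rw [this]
    exact isCompact_preimage_sq isCompact_Icc
  have hDc : IsPreconnected (Dᶜ : Set (unitBall n)) := by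
    have h1 := (isConnected_shell hn hr'0 hr'1).isPreconnected
    have h2 : (Dᶜ : Set (unitBall n)) = Subtype.val ⁻¹' {z : Cn n | r' < esq z ∧ esq z < 1} := by
      ext z
      simp only [D, mem_compl_iff, mem_setOf_eq, not_le, mem_preimage]
      exact ⟨fun h => ⟨h, z.2⟩, fun h => h.1⟩
    rw [h2]
    exact h1.preimage_of_isOpenMap Subtype.val_injective isOpen_unitBall.isOpenMap_subtype_val
      (by rintro z ⟨_, hz⟩; exact ⟨⟨z, hz⟩, rfl⟩)
  have himg : IsPreconnected (Φ '' Dᶜ) := hDc.image _ Φ.continuous.continuousOn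
  have himgK : ∀ w ∈ Φ '' Dᶜ, esq (w : Cn n) ≠ Real.exp (-1) := by
    rintro _ ⟨z, hz, rfl⟩ h
    have : esq (z : Cn n) ≤ r := hr z h
    exact hz (this.trans (le_max_left _ _))
  have hside : (∀ w ∈ Φ '' Dᶜ, esq (w : Cn n) < Real.exp (-1))
      ∨ (∀ w ∈ Φ '' Dᶜ, Real.exp (-1) < esq (w : Cn n)) := by
    by_contra hcon
    push Not at hcon
    obtain ⟨⟨w1, hw1, h1⟩, ⟨w2, hw2, h2⟩⟩ := hcon
    have h4 := (himg.image _ hcs'.continuousOn).ordConnected
    have h5 := h4.out (mem_image_of_mem _ hw2) (mem_image_of_mem _ hw1) ⟨h2, h1⟩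
    obtain ⟨w, hw, hw'⟩ := h5
    exact himgK w hw hw'
  have himD : IsCompact (Φ '' D) := hD.image Φ.continuous
  have hcov : ∀ w : pball n, w ∈ Φ '' Dᶜ ∨ w ∈ Φ '' D := by
    intro w
    by_cases h : Φ.symm w ∈ D
    · right; exact ⟨_, h, Φ.apply_symm_apply w⟩
    · left; exact ⟨_, h, Φ.apply_symm_apply w⟩
  have hne : (Φ '' D).Nonempty := by
    refine ⟨Φ ⟨0, by show esq 0 < 1; simp⟩, ⟨_, ?_, rfl⟩⟩
    show esq 0 ≤ r'
    simpa using hr'0
  rcases hside with h | h
  · obtain ⟨w0, _, hw0⟩ := himD.exists_isMaxOn hne hcs'.continuousOn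
    obtain ⟨z, hz⟩ := exists_sq hn (c := max ((1 + esq (w0 : Cn n)) / 2) ((1 + Real.exp (-1)) / 2))
      (le_max_of_le_right (by positivity))
    have hlt : esq z < 1 := by
      rw [hz]; apply max_lt <;> [have := w0.2.2; skip] <;> linarith
    have hge1 : (1 + esq (w0 : Cn n)) / 2 ≤ esq z := by rw [hz]; exact le_max_left _ _
    have hge2 : (1 + Real.exp (-1)) / 2 ≤ esq z := by rw [hz]; exact le_max_right _ _
    have hzX : z ∈ pball n := ⟨by linarith, hlt⟩
    rcases hcov ⟨z, hzX⟩ with h1 | h1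
    · have := h _ h1
      simp only at this
      linarith
    · have := hw0 h1
      simp only [mem_setOf_eq] at this
      have h3 := w0.2.2
      linarith
  · obtain ⟨w0, _, hw0⟩ := himD.exists_isMinOn hne hcs'.continuousOn
    have hw0pos := w0.2.1
    obtain ⟨z, hz⟩ := exists_sq hn (c := min (esq (w0 : Cn n) / 2) (Real.exp (-1) / 2))
      (le_min (by linarith) (by linarith))
    have hpos : 0 < esq z := by
      rw [hz]; exact lt_min (by linarith) (by linarith)
    have hge1 : esq z ≤ esq (w0 : Cn n) / 2 := by rw [hz]; exact min_le_left _ _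
    have hge2 : esq z ≤ Real.exp (-1) / 2 := by rw [hz]; exact min_le_right _ _
    have hzX : z ∈ pball n := ⟨hpos, by linarith⟩
    rcases hcov ⟨z, hzX⟩ with h1 | h1
    · have := h _ h1
      simp only at this
      linarith
    · have := hw0 h1
      simp only [mem_setOf_eq] at this
      linarith

theorem g0_not_hypQuotient (hn : 2 ≤ n) : ¬ IsHypQuotient (pball n) (g0 (n := n)) := by
  rintro ⟨Γ, hΓ, hfree, hdisc, π, hπ, himg, hfib, hiso⟩
  have hmem : ∀ z : unitBall n, π z ∈ pball n := fun z => himg ▸ mem_image_of_mem π z.2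
  let f : unitBall n → pball n := fun z => ⟨π z, hmem z⟩
  have hπc : ContinuousOn π (unitBall n) := hπ.continuousOn
  have hfc : Continuous f := by
    have : Continuous fun z : unitBall n => π z := continuousOn_iff_continuous_restrict.1 hπc
    exact this.subtype_mk _
  have hfs : Function.Surjective f := by
    rintro ⟨w, hw⟩
    rw [← himg] at hw
    obtain ⟨z, hz, rfl⟩ := hw
    exact ⟨⟨z, hz⟩, rfl⟩
  -- openness from the inverse function theorem
  have hmap : ∀ z ∈ unitBall n, map π (𝓝 z) = 𝓝 (π z) := by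
    intro z hz
    have hcd : ContDiffAt ℝ ∞ π z := hπ.contDiffAt (isOpen_unitBall.mem_nhds hz)
    have hsd : HasStrictFDerivAt π (fderiv ℝ π z) z := hcd.hasStrictFDerivAt (by simp)
    apply hsd.map_nhds_eq_of_surj
    have hinj : Function.Injective (fderiv ℝ π z : Cn n →ₗ[ℝ] Cn n) := by
      rw [injective_iff_map_eq_zero]
      intro v hv
      by_contra hne
      have h1 := hiso z hz v
      have hv' : fderiv ℝ π z v = 0 := hv
      rw [hv', g0_zero_left] at h1
      exact (hypSq_pos hz hne).ne h1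
    exact LinearMap.range_eq_top.2 (LinearMap.injective_iff_surjective.1 hinj)
  have hfo : IsOpenMap f := by
    rw [isOpenMap_iff_nhds_le]
    intro z S hS
    have hS' : f ⁻¹' S ∈ 𝓝 z := hS
    rw [nhds_subtype_eq_comap, mem_comap] at hS' ⊢
    obtain ⟨T, hT, hTS⟩ := hS'
    refine ⟨π '' (T ∩ unitBall n), ?_, ?_⟩
    · show π '' (T ∩ unitBall n) ∈ 𝓝 (π z)
      rw [← hmap z z.2]
      exact image_mem_map (inter_mem hT (isOpen_unitBall.mem_nhds z.2))
    · rintro w ⟨y, ⟨hy1, hy2⟩, hyw⟩
      have h1 : f ⟨y, hy2⟩ = w := Subtype.ext hyw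
      rw [← h1]
      exact hTS (show (⟨y, hy2⟩ : unitBall n) ∈ Subtype.val ⁻¹' T from hy1)
  have hq : Topology.IsQuotientMap f := hfo.isQuotientMap hfc hfs
  have : ContinuousConstSMul Γ (unitBall n) := by
    refine ⟨fun γ => ?_⟩
    obtain ⟨F, hF, hF'⟩ := hΓ γ.1 γ.2
    apply continuous_induced_rng.2
    have h1 : Continuous fun z : unitBall n => F z :=
      continuousOn_iff_continuous_restrict.1 hF.2.1.continuousOn
    refine h1.congr fun z => ?_
    exact (hF' z).symm
  have : ProperlyDiscontinuousSMul Γ (unitBall n) := by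
    refine ⟨fun {K L} hK hL => ?_⟩
    have h1 := (hdisc (K ∪ L) (hK.union hL)).preimage
      (Subtype.val_injective.injOn (s := (Subtype.val : Γ → Equiv.Perm (unitBall n)) ⁻¹' _))
    refine h1.subset ?_
    rintro γ ⟨w, ⟨z, hz, hzw⟩, hw⟩
    exact ⟨γ.2, w, ⟨z, Or.inl hz, hzw⟩, Or.inr hw⟩
  have : IsCancelSMul Γ (unitBall n) := by
    rw [isCancelSMul_iff_eq_one_of_smul_eq]
    intro γ z h
    exact Subtype.ext (hfree γ.1 γ.2 ⟨z, h⟩)
  have : LocallyCompactSpace (unitBall n) := isOpen_unitBall.locallyCompactSpace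
  have hcov := hq.isQuotientCoveringMap_of_properlyDiscontinuousSMul (G := Γ) (by
    intro e₁ e₂
    rw [MulAction.mem_orbit_iff, eq_comm (a := f e₁)]
    constructor
    · intro h
      obtain ⟨γ, hγ, h2⟩ := (hfib e₂ e₁).1 (congrArg Subtype.val h)
      exact ⟨⟨γ, hγ⟩, h2⟩
    · rintro ⟨γ, h⟩
      exact Subtype.ext ((hfib e₂ e₁).2 ⟨γ.1, γ.2, h⟩))
  have : PreconnectedSpace (unitBall n) :=
    isPreconnected_iff_preconnectedSpace.1 unitBall_preconnected
  have hinj : Function.Injective f := covering_injective hn hcov.isCoveringMap hfs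
  exact no_homeo hn ((Equiv.ofBijective f ⟨hinj, hfs⟩).toHomeomorphOfContinuousOpen hfc hfo)

end Pool.Agent.Helper206.Bottom
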