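import Mathlib
import Pool.Agent.Helper206.Bottom.Lower

set_option autoImplicit false

namespace Pool.Agent.Helper206.Bottom

open Set MeasureTheory Filter
open scoped Topology ContDiff ComplexConjugate ENNReal

variable {n : ℕ}

lemma radial_integral (hn : 2 ≤ n) : ∃ c : ℝ, 0 < c ∧ ∀ F : ℝ → ℝ,
    ∫ z : Cn n, F (esq z) = c * ∫ y in Ioi (0 : ℝ), y ^ (2 * n - 1) * F (y ^ 2) := by
  let e := PiLp.continuousLinearEquiv 2 ℝ (fun _ : Fin n => ℂ)
  let μ : Measure (PiLp 2 (fun _ : Fin n => ℂ)) := (volume : Measure (Cn n)).map e.symm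
  have hdim : Module.finrank ℝ (PiLp 2 (fun _ : Fin n => ℂ)) = 2 * n := by
    rw [e.toLinearEquiv.finrank_eq, Module.finrank_pi_fintype]
    simp [Complex.finrank_real_complex, mul_comm]
  have : Nontrivial (PiLp 2 (fun _ : Fin n => ℂ)) :=
    Module.nontrivial_of_finrank_pos (R := ℝ) (by rw [hdim]; omega)
  refine ⟨(2 * n : ℕ) * μ.real (Metric.ball 0 1), ?_, fun F => ?_⟩
  · apply mul_pos
    · exact_mod_cast (by omega : 0 < 2 * n)
    · have h := Metric.measure_ball_pos μ (0 : PiLp 2 (fun _ : Fin n => ℂ)) one_pos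
      exact ENNReal.toReal_pos h.ne' Metric.isBounded_ball.measure_lt_top.ne
  · have h1 := MeasureTheory.integral_fun_norm_addHaar μ (fun r => F (r ^ 2))
    have h2 : ∫ x, F (‖x‖ ^ 2) ∂μ = ∫ z : Cn n, F (esq z) := by
      have := e.symm.toHomeomorph.measurableEmbedding.integral_map (μ := (volume : Measure (Cn n)))
        (fun x => F (‖x‖ ^ 2))
      refine this.trans ?_
      apply integral_congr_ae
      refine Eventually.of_forall fun z => ?_
      show F (‖WithLp.toLp 2 z‖ ^ 2) = F (esq z)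
      rw [EuclideanSpace.norm_sq_eq]
      congr 1
      simp [esq, Complex.normSq_eq_norm_sq]
    rw [← h2, h1, hdim]
    simp [mul_assoc]

/-- Radius as a function of `τ`. -/
noncomputable def rho (τ : ℝ) : ℝ := Real.exp (-(Real.exp (2 * τ) / 2))

lemma rho_sq (τ : ℝ) : rho τ ^ 2 = Real.exp (-Real.exp (2 * τ)) := by
  unfold rho
  rw [← Real.exp_nat_mul]; congr 1; push_cast; ring

lemma hasDerivAt_rho (τ : ℝ) : HasDerivAt rho (-(Real.exp (2 * τ)) * rho τ) τ := by
  have h1 : HasDerivAt (fun τ : ℝ => Real.exp (2 * τ)) (Real.exp (2 * τ) * 2) τ := by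
    have := ((hasDerivAt_id τ).const_mul 2).exp
    simpa using this
  have h2 := ((h1.div_const 2).neg).exp
  refine HasDerivAt.congr_deriv h2 ?_
  unfold rho
  simp only [Pi.neg_apply]
  ring

lemma rho_inj : Function.Injective rho := by
  intro a b h
  have h1 := Real.exp_injective h
  have h2 : Real.exp (2 * a) = Real.exp (2 * b) := by linarith
  have h3 := Real.exp_injective h2
  linarith

lemma rho_range : rho '' univ = Ioo 0 1 := by
  ext y
  constructor
  · rintro ⟨τ, _, rfl⟩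
    refine ⟨Real.exp_pos _, ?_⟩
    unfold rho
    rw [Real.exp_lt_one_iff]
    have := Real.exp_pos (2 * τ)
    linarith
  · rintro ⟨h1, h2⟩
    have h3 : 0 < -Real.log y := by have := Real.log_neg h1 h2; linarith
    refine ⟨Real.log (2 * (-Real.log y)) / 2, trivial, ?_⟩
    unfold rho
    rw [mul_div_cancel₀ _ two_ne_zero, Real.exp_log (by positivity)]
    rw [mul_div_cancel_left₀ _ two_ne_zero, neg_neg, Real.exp_log h1]

lemma radial_TT (hn : 2 ≤ n) : ∃ c : ℝ, 0 < c ∧ ∀ h : ℝ → ℝ,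
    ∫ z in pball n, h (TT z) * dens n (esq z) = c * ∫ τ : ℝ, h τ * Real.exp (-(2 * n * τ)) := by
  obtain ⟨c, hc, hF⟩ := radial_integral hn
  refine ⟨c, hc, fun h => ?_⟩
  set F : ℝ → ℝ := fun s => (Ioo (0:ℝ) 1).indicator
    (fun s => h (Real.log (-Real.log s) / 2) * dens n s) s with hFdef
  have e1 : ∫ z in pball n, h (TT z) * dens n (esq z) = ∫ z : Cn n, F (esq z) := by
    rw [← integral_indicator isOpen_pball.measurableSet]
    congr 1
  rw [e1, hF]
  congr 1
  have e2 : ∫ y in Ioi (0:ℝ), y ^ (2 * n - 1) * F (y ^ 2)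
      = ∫ y in Ioo (0:ℝ) 1, y ^ (2 * n - 1) * (h (Real.log (-Real.log (y ^ 2)) / 2)
        * dens n (y ^ 2)) := by
    have h1 : ∀ y ∈ Ioi (0:ℝ), y ^ (2 * n - 1) * F (y ^ 2) = (Ioo (0:ℝ) 1).indicator
        (fun y => y ^ (2 * n - 1) * (h (Real.log (-Real.log (y ^ 2)) / 2)
        * dens n (y ^ 2))) y := by
      intro y hy
      have hy : 0 < y := hy
      by_cases hy1 : y < 1
      · have h2 : y ^ 2 ∈ Ioo (0:ℝ) 1 := ⟨by positivity, by nlinarith⟩
        rw [indicator_of_mem (show y ∈ Ioo (0:ℝ) 1 from ⟨hy, hy1⟩), hFdef]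
        simp only [indicator_of_mem h2]
      · have h2 : y ^ 2 ∉ Ioo (0:ℝ) 1 := fun h => hy1 (by nlinarith [h.2])
        rw [indicator_of_notMem (show y ∉ Ioo (0:ℝ) 1 from fun h => hy1 h.2), hFdef]
        simp only [indicator_of_notMem h2, mul_zero]
    rw [setIntegral_congr_fun measurableSet_Ioi h1, setIntegral_indicator measurableSet_Ioo]
    congr 2
    ext y; simp only [mem_inter_iff, mem_Ioi, mem_Ioo]; tauto
  rw [e2, ← rho_range, integral_image_eq_integral_abs_deriv_smul MeasurableSet.univ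
    (fun τ _ => (hasDerivAt_rho τ).hasDerivWithinAt) rho_inj.injOn, setIntegral_univ]
  apply integral_congr_ae
  refine Eventually.of_forall fun τ => ?_
  simp only [smul_eq_mul]
  have hr : 0 < rho τ := Real.exp_pos _
  have hu : 0 < Real.exp (2 * τ) := Real.exp_pos _
  have h3 : -Real.log (rho τ ^ 2) = Real.exp (2 * τ) := by rw [rho_sq, Real.log_exp, neg_neg]
  have h4 : Real.log (Real.exp (2 * τ)) / 2 = τ := by rw [Real.log_exp]; ring
  unfold dens
  rw [h3, h4, neg_mul, abs_neg, abs_of_pos (by positivity)]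
  have h5 : Real.exp (-(2 * n * τ)) = (1 / Real.exp (2 * τ)) ^ n := by
    rw [one_div, ← Real.exp_neg, ← Real.exp_nat_mul]; congr 1; ring
  rw [h5]
  have h6 : rho τ * rho τ ^ (2 * n - 1) = (rho τ ^ 2) ^ n := by
    rw [← pow_mul, ← pow_succ']; congr 1; omega
  calc Real.exp (2 * τ) * rho τ * (rho τ ^ (2 * n - 1) * (h τ
        * ((1 / (rho τ ^ 2 * Real.exp (2 * τ))) ^ n * (1 / Real.exp (2 * τ)))))
      = (rho τ * rho τ ^ (2 * n - 1)) * (h τ * (1 / (rho τ ^ 2 * Real.exp (2 * τ))) ^ n)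
        * (Real.exp (2 * τ) * (1 / Real.exp (2 * τ))) := by ring
    _ = (rho τ ^ 2) ^ n * (h τ * (1 / (rho τ ^ 2 * Real.exp (2 * τ))) ^ n) := by
        rw [h6, mul_one_div_cancel hu.ne', mul_one]
    _ = h τ * ((rho τ ^ 2) * (1 / (rho τ ^ 2 * Real.exp (2 * τ)))) ^ n := by
        rw [mul_pow]; ring
    _ = h τ * (1 / Real.exp (2 * τ)) ^ n := by
        congr 2
        field_simp

/-! ### test functions -/

/-- Radial test function. -/
noncomputable def phiK (n : ℕ) (k : ℝ → ℝ) : Cn n → ℝ := (pball n).indicator fun z => k (TT z)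

section
variable {k : ℝ → ℝ} (hk : ContDiff ℝ ∞ k) (hc : HasCompactSupport k)

lemma sq_eq_TT {z : Cn n} (hz : z ∈ pball n) : esq z = Real.exp (-Real.exp (2 * TT z)) := by
  have hu := log_neg' hz
  have e1 : -Real.log (esq z) = Real.exp (2 * TT z) := by
    unfold TT; rw [mul_div_cancel₀ _ (two_ne_zero), Real.exp_log hu]
  rw [← e1, neg_neg, Real.exp_log hz.1]

include hc in
lemma phiK_support : ∃ S : Set (Cn n), IsCompact S ∧ S ⊆ pball n ∧
    Function.support (phiK n k) ⊆ S := by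
  refine ⟨{z | esq z ∈ (fun τ : ℝ => Real.exp (-Real.exp (2 * τ))) '' tsupport k}, ?_, ?_, ?_⟩
  · exact isCompact_preimage_sq (hc.isCompact.image (by fun_prop))
  · rintro z ⟨τ, _, hτ⟩
    have hτ : Real.exp (-Real.exp (2 * τ)) = esq z := hτ
    refine ⟨by rw [← hτ]; exact Real.exp_pos _, ?_⟩
    rw [← hτ, Real.exp_lt_one_iff]; simpa using Real.exp_pos _
  · intro z hz
    have hzX : z ∈ pball n := by
      by_contra h
      exact hz (indicator_of_notMem h _)
    have h2 : k (TT z) ≠ 0 := by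
      have : phiK n k z = k (TT z) := indicator_of_mem hzX _
      rw [Function.mem_support, this] at hz
      exact hz
    exact ⟨TT z, subset_tsupport k h2, (sq_eq_TT hzX).symm⟩

include hc in
lemma phiK_hcs : HasCompactSupport (phiK n k) := by
  obtain ⟨S, h1, _, h3⟩ := phiK_support (n := n) hc
  exact HasCompactSupport.of_support_subset_isCompact h1 h3

include hc in
lemma phiK_tsupport : tsupport (phiK n k) ⊆ pball n := by
  obtain ⟨S, h1, h2, h3⟩ := phiK_support (n := n) hc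
  exact (closure_minimal h3 h1.isClosed).trans h2

lemma phiK_eventually {z : Cn n} (hz : z ∈ pball n) :
    phiK n k =ᶠ[𝓝 z] fun z => k (TT z) := by
  filter_upwards [isOpen_pball.mem_nhds hz] with y hy
  exact indicator_of_mem hy _

lemma contDiffOn_TT : ContDiffOn ℝ ∞ (TT : Cn n → ℝ) (pball n) := by
  have h1 : ContDiffOn ℝ ∞ (fun s : ℝ => Real.log (-Real.log s) / 2) (Ioo 0 1) := by
    have h2 : ContDiffOn ℝ ∞ (fun s : ℝ => -Real.log s) (Ioo 0 1) :=
      (Real.contDiffOn_log.mono (by intro s hs; exact (ne_of_gt hs.1 : s ≠ 0))).neg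
    exact (h2.log fun s hs => (log_neg' hs).ne').div_const 2
  exact contDiffOn_comp_sq h1

include hk hc in
lemma phiK_contDiff : ContDiff ℝ ∞ (phiK n k) := by
  rw [contDiff_iff_contDiffAt]
  intro z
  by_cases hz : z ∈ pball n
  · exact ((hk.comp_contDiffOn contDiffOn_TT).contDiffAt
      (isOpen_pball.mem_nhds hz)).congr_of_eventuallyEq (phiK_eventually hz)
  · have hz' : z ∉ tsupport (phiK n k) := fun h => hz (phiK_tsupport hc h)
    exact contDiffAt_const.congr_of_eventuallyEq (notMem_tsupport_iff_eventuallyEq.1 hz')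

include hk in
lemma phiK_gradSq {z : Cn n} (hz : z ∈ pball n) : gradSq g0 (phiK n k) z = deriv k (TT z) ^ 2 := by
  apply gradSq_TT hz
  intro v
  rw [(phiK_eventually hz).fderiv_eq]
  have h1 := (HD_TT hz).comp (P := k) (hk.differentiable (by simp) (TT z)).hasDerivAt
  rw [h1.fderiv v]

include hk hc in
lemma rayleigh_phiK (hn : 2 ≤ n) (hk0 : 0 < ∫ τ : ℝ, k τ ^ 2 * Real.exp (-(2 * n * τ))) :
    (∫ z in pball n, gradSq g0 (phiK n k) z * volDensity g0 z)
      / (∫ z in pball n, phiK n k z ^ 2 * volDensity g0 z)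
    = (∫ τ : ℝ, deriv k τ ^ 2 * Real.exp (-(2 * n * τ)))
      / ∫ τ : ℝ, k τ ^ 2 * Real.exp (-(2 * n * τ)) := by
  obtain ⟨c, hcpos, hh⟩ := radial_TT hn
  have hm := isOpen_pball (n := n).measurableSet
  have e1 : ∫ z in pball n, gradSq g0 (phiK n k) z * volDensity g0 z
      = ∫ z in pball n, (deriv k (TT z)) ^ 2 * dens n (esq z) :=
    setIntegral_congr_fun hm fun z hz => by simp only [volDensity_g0 hz, phiK_gradSq hk hz]
  have e2 : ∫ z in pball n, phiK n k z ^ 2 * volDensity g0 z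
      = ∫ z in pball n, (k (TT z)) ^ 2 * dens n (esq z) :=
    setIntegral_congr_fun hm fun z hz => by
      simp only [volDensity_g0 hz, phiK, indicator_of_mem hz]
  rw [e1, e2, hh (fun τ => deriv k τ ^ 2), hh (fun τ => k τ ^ 2)]
  rw [mul_div_mul_left _ _ hcpos.ne']

end

end Pool.Agent.Helper206.Bottom
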