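import Mathlib
import Pool.Agent.Helper206.Bottom.Upper

set_option autoImplicit false

namespace Pool.Agent.Helper206.Bottom

open Set MeasureTheory Filter
open scoped Topology ContDiff ComplexConjugate ENNReal

variable {n : ℕ}

section
variable {η : ℝ → ℝ} (h1 : ContDiff ℝ ∞ η) (h2 : HasCompactSupport η)

/-- Test profile. -/
noncomputable def kk (n : ℕ) (η : ℝ → ℝ) (t τ : ℝ) : ℝ := Real.exp (n * τ) * η (t * τ)

include h1 in
lemma kk_contDiff (t : ℝ) : ContDiff ℝ ∞ (kk n η t) := by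
  unfold kk
  exact ((contDiff_const.mul contDiff_id).exp).mul (h1.comp (contDiff_const.mul contDiff_id))

include h2 in
lemma kk_hcs {t : ℝ} (ht : 0 < t) : HasCompactSupport (kk n η t) := by
  unfold kk
  apply HasCompactSupport.mul_left
  have := h2.comp_homeomorph (Homeomorph.mulLeft₀ t ht.ne')
  exact this

include h1 in
lemma kk_deriv (t τ : ℝ) :
    deriv (kk n η t) τ = Real.exp (n * τ) * (n * η (t * τ) + t * deriv η (t * τ)) := by
  have hη : HasDerivAt η (deriv η (t * τ)) (t * τ) :=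
    (h1.differentiable (by simp) _).hasDerivAt
  have e1 : HasDerivAt (fun τ : ℝ => Real.exp (n * τ)) (Real.exp (n * τ) * n) τ := by
    simpa using ((hasDerivAt_id τ).const_mul (n : ℝ)).exp
  have e2 : HasDerivAt (fun τ : ℝ => η (t * τ)) (deriv η (t * τ) * t) τ := by
    have : HasDerivAt (fun τ : ℝ => t * τ) t τ := by
      simpa using (hasDerivAt_id τ).const_mul t
    exact hη.comp τ this
  have e3 : HasDerivAt (kk n η t) (Real.exp (n * τ) * n * η (t * τ)
      + Real.exp (n * τ) * (deriv η (t * τ) * t)) τ := e1.mul e2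
  rw [e3.deriv]; ring

lemma kk_int0 {t : ℝ} (ht : 0 < t) :
    ∫ τ : ℝ, kk n η t τ ^ 2 * Real.exp (-(2 * n * τ)) = t⁻¹ * ∫ x, η x ^ 2 := by
  have e : ∀ τ : ℝ, kk n η t τ ^ 2 * Real.exp (-(2 * n * τ)) = (fun x => η x ^ 2) (t * τ) := by
    intro τ
    have : Real.exp (n * τ) ^ 2 * Real.exp (-(2 * n * τ)) = 1 := by
      rw [← Real.exp_nat_mul, ← Real.exp_add, Real.exp_eq_one_iff]; push_cast; ring
    unfold kk
    simp only
    rw [mul_pow]
    linear_combination η (t * τ) ^ 2 * this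
  simp only [e]
  rw [Measure.integral_comp_mul_left (fun x => η x ^ 2) t, abs_of_pos (inv_pos.2 ht), smul_eq_mul]

include h1 in
lemma kk_int1 {t : ℝ} (ht : 0 < t) :
    ∫ τ : ℝ, deriv (kk n η t) τ ^ 2 * Real.exp (-(2 * n * τ))
      = t⁻¹ * ∫ x, (n * η x + t * deriv η x) ^ 2 := by
  have e : ∀ τ : ℝ, deriv (kk n η t) τ ^ 2 * Real.exp (-(2 * n * τ))
      = (fun x => (n * η x + t * deriv η x) ^ 2) (t * τ) := by
    intro τ
    have : Real.exp (n * τ) ^ 2 * Real.exp (-(2 * n * τ)) = 1 := by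
      rw [← Real.exp_nat_mul, ← Real.exp_add, Real.exp_eq_one_iff]; push_cast; ring
    rw [kk_deriv h1]
    simp only
    rw [mul_pow]
    linear_combination (n * η (t * τ) + t * deriv η (t * τ)) ^ 2 * this
  simp only [e]
  rw [Measure.integral_comp_mul_left (fun x => (n * η x + t * deriv η x) ^ 2) t,
    abs_of_pos (inv_pos.2 ht), smul_eq_mul]

include h1 h2 in
lemma expand (t : ℝ) : ∫ x, (n * η x + t * deriv η x) ^ 2
    = (n : ℝ) ^ 2 * (∫ x, η x ^ 2) + t * (2 * n * ∫ x, η x * deriv η x)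
      + t ^ 2 * ∫ x, deriv η x ^ 2 := by
  have hd : Continuous (deriv η) := h1.continuous_deriv (by simp)
  have c0 : HasCompactSupport fun x => η x ^ 2 :=
    h2.comp_left (g := fun x : ℝ => x ^ 2) (by simp)
  have c2 : HasCompactSupport fun x => deriv η x ^ 2 :=
    h2.deriv.comp_left (g := fun x : ℝ => x ^ 2) (by simp)
  have i0 : Integrable fun x => η x ^ 2 :=
    (h1.continuous.pow 2).integrable_of_hasCompactSupport c0
  have i1 : Integrable fun x => η x * deriv η x :=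
    (h1.continuous.mul hd).integrable_of_hasCompactSupport h2.mul_right
  have i2 : Integrable fun x => deriv η x ^ 2 :=
    (hd.pow 2).integrable_of_hasCompactSupport c2
  have e : ∀ x, (n * η x + t * deriv η x) ^ 2 = (n : ℝ) ^ 2 * η x ^ 2
      + (t * (2 * n)) * (η x * deriv η x) + t ^ 2 * deriv η x ^ 2 := by intro x; ring
  have j0 : Integrable fun x => (n : ℝ) ^ 2 * η x ^ 2 := i0.const_mul _
  have j1 : Integrable fun x => (t * (2 * n)) * (η x * deriv η x) := i1.const_mul _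
  have j2 : Integrable fun x => t ^ 2 * deriv η x ^ 2 := i2.const_mul _
  have j3 : Integrable fun x => (n : ℝ) ^ 2 * η x ^ 2 + (t * (2 * n)) * (η x * deriv η x) :=
    j0.add j1
  simp only [e]
  rw [integral_add j3 j2, integral_add j0 j1, integral_const_mul, integral_const_mul,
    integral_const_mul]
  ring

end

lemma exists_eta : ∃ η : ℝ → ℝ, ContDiff ℝ ∞ η ∧ HasCompactSupport η ∧ η 0 = 1 := by
  obtain ⟨b⟩ : Nonempty (ContDiffBump (0 : ℝ)) := ⟨default⟩
  exact ⟨b, b.contDiff, b.hasCompactSupport, b.one_of_mem_closedBall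
    (Metric.mem_closedBall_self b.rIn_pos.le)⟩

/-- The bottom of the spectrum of the punctured ball is `n^2`. -/
theorem g0_bottom (hn : 2 ≤ n) : bottomSpectrum (pball n) (g0 (n := n)) = (n : ℝ) ^ 2 := by
  obtain ⟨η, h1, h2, hη0⟩ := exists_eta
  have hI0 : 0 < ∫ x, η x ^ 2 := by
    have hc : Continuous fun x => η x ^ 2 := h1.continuous.pow 2
    have hcs : HasCompactSupport fun x => η x ^ 2 :=
      h2.comp_left (g := fun x : ℝ => x ^ 2) (by simp)
    apply hc.integral_pos_of_hasCompactSupport_nonneg_nonzero hcs (fun x => sq_nonneg _) (x := 0)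
    rw [hη0]; norm_num
  set I0 := ∫ x, η x ^ 2 with hI0def
  set I1 := 2 * (n : ℝ) * ∫ x, η x * deriv η x
  set I2 := ∫ x, deriv η x ^ 2
  have hmem : ∀ t : ℝ, 0 < t → ((n : ℝ) ^ 2 * I0 + t * I1 + t ^ 2 * I2) / I0 ∈
      {q | ∃ φ : Cn n → ℝ, ContDiff ℝ ∞ φ ∧ HasCompactSupport φ ∧ tsupport φ ⊆ pball n ∧ φ ≠ 0 ∧
        q = (∫ z in pball n, gradSq g0 φ z * volDensity g0 z)
          / (∫ z in pball n, φ z ^ 2 * volDensity g0 z)} := by
    intro t ht
    have hk := kk_contDiff (n := n) h1 t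
    have hkc := kk_hcs (n := n) h2 ht
    have hpos : 0 < ∫ τ : ℝ, kk n η t τ ^ 2 * Real.exp (-(2 * n * τ)) := by
      rw [kk_int0 ht]; positivity
    refine ⟨phiK n (kk n η t), phiK_contDiff hk hkc, phiK_hcs hkc, phiK_tsupport hkc, ?_, ?_⟩
    · intro h0
      obtain ⟨z, hz, hz', _⟩ := exists_TT hn 0
      have h3 : phiK n (kk n η t) z = kk n η t (TT z) := indicator_of_mem hz _
      rw [h0, hz'] at h3
      unfold kk at h3
      simp [hη0] at h3
    · rw [rayleigh_phiK hk hkc hn hpos, kk_int0 ht, kk_int1 h1 ht, expand h1 h2,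
        mul_div_mul_left _ _ (inv_pos.2 ht).ne']
  unfold bottomSpectrum
  apply csInf_eq_of_forall_ge_of_forall_gt_exists_lt
  · exact ⟨_, hmem 1 one_pos⟩
  · rintro q ⟨φ, k1, k2, k3, k4, rfl⟩
    rw [le_div_iff₀ (phi2_pos k1 k2 k3 k4)]
    exact lower_bound k1 k2 k3
  · intro w hw
    have hcont : Tendsto (fun t : ℝ => ((n : ℝ) ^ 2 * I0 + t * I1 + t ^ 2 * I2) / I0) (𝓝[>] 0)
        (𝓝 (((n : ℝ) ^ 2 * I0 + 0 * I1 + 0 ^ 2 * I2) / I0)) := by
      apply Tendsto.mono_left _ nhdsWithin_le_nhds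
      apply Continuous.tendsto (f := fun t : ℝ => ((n : ℝ) ^ 2 * I0 + t * I1 + t ^ 2 * I2) / I0)
      fun_prop
    have e : ((n : ℝ) ^ 2 * I0 + 0 * I1 + 0 ^ 2 * I2) / I0 = (n : ℝ) ^ 2 := by
      field_simp; ring
    rw [e] at hcont
    have h3 := (hcont.eventually (gt_mem_nhds hw)).and self_mem_nhdsWithin
    obtain ⟨t, ht1, ht2⟩ := h3.exists
    exact ⟨_, hmem t ht2, ht1⟩

end Pool.Agent.Helper206.Bottom
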